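import Mathlib.Combinatorics.SimpleGraph.Hamiltonian
import Mathlib.Tactic

/-!
# From a cyclic map to a Hamilton cycle
-/

namespace FlagHam

variable {V : Type*} {Γ : SimpleGraph V} {f : V → V}

/-- The walk along the iterates of `f`. -/
def itWalk (hadj : ∀ v, Γ.Adj v (f v)) : (k : ℕ) → (u : V) → Γ.Walk u (f^[k] u)
  | 0, _ => SimpleGraph.Walk.nil
  | k + 1, u => SimpleGraph.Walk.cons (hadj u) (itWalk hadj k (f u))

theorem itWalk_length (hadj : ∀ v, Γ.Adj v (f v)) (k : ℕ) (u : V) :
    (itWalk hadj k u).length = k := by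
  induction k generalizing u with
  | zero => rfl
  | succ k ih =>
    simp only [itWalk, SimpleGraph.Walk.length_cons]
    exact congrArg (· + 1) (ih (f u))

theorem mem_support_itWalk (hadj : ∀ v, Γ.Adj v (f v)) (k : ℕ) (u w : V) :
    w ∈ (itWalk hadj k u).support ↔ ∃ j ≤ k, w = f^[j] u := by
  induction k generalizing u with
  | zero =>
    simp only [itWalk]
    constructor
    · intro h
      exact ⟨0, le_rfl, by simpa using h⟩
    · rintro ⟨j, hj, h⟩
      obtain rfl : j = 0 := by omega
      have : w = u := h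
      simp [this]
  | succ k ih =>
    simp only [itWalk, SimpleGraph.Walk.support_cons, List.mem_cons]
    constructor
    · rintro (h | h)
      · exact ⟨0, Nat.zero_le _, h⟩
      · obtain ⟨j, hj, h⟩ := (ih (f u)).mp h
        exact ⟨j + 1, by omega, h⟩
    · rintro ⟨j, hj, h⟩
      rcases j with _ | j
      · exact Or.inl h
      · exact Or.inr ((ih (f u)).mpr ⟨j, by omega, h⟩)

theorem mem_edges_itWalk (hadj : ∀ v, Γ.Adj v (f v)) (k : ℕ) (u : V) (e : Sym2 V)
    (he : e ∈ (itWalk hadj k u).edges) : ∃ j < k, e = s(f^[j] u, f^[j + 1] u) := by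
  induction k generalizing u with
  | zero => simp [itWalk] at he
  | succ k ih =>
    simp only [itWalk, SimpleGraph.Walk.edges_cons, List.mem_cons] at he
    rcases he with h | h
    · exact ⟨0, by omega, h⟩
    · obtain ⟨j, hj, h⟩ := ih (f u) h
      exact ⟨j + 1, by omega, h⟩

theorem isPath_itWalk (hadj : ∀ v, Γ.Adj v (f v)) (k : ℕ) (u : V)
    (h : ∀ i j, i < j → j ≤ k → f^[i] u ≠ f^[j] u) : (itWalk hadj k u).IsPath := by
  induction k generalizing u with
  | zero => exact SimpleGraph.Walk.IsPath.nil
  | succ k ih =>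
    simp only [itWalk, SimpleGraph.Walk.cons_isPath_iff]
    refine ⟨ih (f u) ?_, ?_⟩
    · intro i j hij hj
      exact h (i + 1) (j + 1) (by omega) (by omega)
    · intro hm
      obtain ⟨j, hj, hu⟩ := (mem_support_itWalk hadj k (f u) u).mp hm
      exact h 0 (j + 1) (by omega) (by omega) hu

/-- A fixed point free cyclic map along the edges of a graph with at least three vertices
gives a Hamilton cycle. -/
theorem hamiltonian_of_cyclic [Finite V] [DecidableEq V] (hadj : ∀ v, Γ.Adj v (f v))
    (htrans : ∀ u v, ∃ k, f^[k] u = v)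
    (h3 : ∃ a b c : V, a ≠ b ∧ a ≠ c ∧ b ≠ c) :
    ∃ (v : V) (p : Γ.Walk v v), p.IsHamiltonianCycle := by
  classical
  have : Fintype V := Fintype.ofFinite V
  obtain ⟨v0, b0, c0, hab, hac, hbc⟩ := h3
  -- the period
  have hper : ∃ k, 0 < k ∧ f^[k] v0 = v0 := by
    obtain ⟨k, hk⟩ := htrans (f v0) v0
    exact ⟨k + 1, Nat.succ_pos k, hk⟩
  set N := Nat.find hper with hN
  have hNpos : 0 < N := (Nat.find_spec hper).1
  have hNv : f^[N] v0 = v0 := (Nat.find_spec hper).2
  have hmin : ∀ k, 0 < k → k < N → f^[k] v0 ≠ v0 := by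
    intro k hk hkN h
    exact Nat.find_min hper hkN ⟨hk, h⟩
  have hNm : ∀ m, f^[N * m] v0 = v0 := by
    intro m
    induction m with
    | zero => rfl
    | succ m ih => rw [Nat.mul_succ, Function.iterate_add_apply, hNv, ih]
  have hmod : ∀ k, f^[k] v0 = f^[k % N] v0 := by
    intro k
    conv_lhs => rw [← Nat.mod_add_div k N]
    rw [Function.iterate_add_apply, hNm]
  -- distinctness
  have hdist : ∀ i j, i < j → j < N → f^[i] v0 ≠ f^[j] v0 := by
    intro i j hij hj h
    -- apply f^[N - j]
    have h1 : f^[N - j + i] v0 = f^[N - j + j] v0 := by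
      rw [Function.iterate_add_apply, Function.iterate_add_apply, h]
    have h2 : N - j + j = N := by omega
    rw [h2, hNv] at h1
    exact hmin (N - j + i) (by omega) (by omega) h1
  -- the number of vertices
  have hcard : Fintype.card V = N := by
    have hbij : Function.Bijective (fun i : Fin N => f^[i.1] v0) := by
      constructor
      · intro i j hij
        by_contra hne
        have : i.1 ≠ j.1 := fun h => hne (Fin.ext h)
        rcases Nat.lt_or_gt_of_ne this with h | h
        · exact hdist i.1 j.1 h j.2 hij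
        · exact hdist j.1 i.1 h i.2 hij.symm
      · intro w
        obtain ⟨k, hk⟩ := htrans v0 w
        refine ⟨⟨k % N, Nat.mod_lt _ hNpos⟩, ?_⟩
        show f^[k % N] v0 = w
        rw [← hmod, hk]
    rw [← Fintype.card_of_bijective hbij, Fintype.card_fin]
  have hN3 : 3 ≤ N := by
    rw [← hcard]
    have hsub : ({v0, b0, c0} : Finset V).card ≤ Fintype.card V := Finset.card_le_univ _
    have h3c : ({v0, b0, c0} : Finset V).card = 3 := Finset.card_eq_three.mpr
      ⟨v0, b0, c0, hab, hac, hbc, rfl⟩
    omega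
  -- the cycle
  have hN' : N = (N - 1) + 1 := by omega
  have hlast : f^[N - 1] (f v0) = v0 := by
    have : f^[(N - 1) + 1] v0 = v0 := by rw [← hN']; exact hNv
    exact this
  let p : Γ.Walk (f v0) v0 := (itWalk hadj (N - 1) (f v0)).copy rfl hlast
  refine ⟨v0, SimpleGraph.Walk.cons (hadj v0) p, ?_⟩
  rw [SimpleGraph.Walk.isHamiltonianCycle_iff_isCycle_and_length_eq]
  constructor
  · rw [SimpleGraph.Walk.cons_isCycle_iff]
    constructor
    · simp only [p, SimpleGraph.Walk.isPath_copy]
      refine isPath_itWalk hadj (N - 1) (f v0) ?_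
      intro i j hij hj h
      have h' : f^[i + 1] v0 = f^[j + 1] v0 := h
      by_cases hjN : j + 1 = N
      · rw [hjN, hNv] at h'
        exact hmin (i + 1) (by omega) (by omega) h'
      · exact hdist (i + 1) (j + 1) (by omega) (by omega) h'
    · intro he
      simp only [p, SimpleGraph.Walk.edges_copy] at he
      obtain ⟨j, hj, h⟩ := mem_edges_itWalk hadj _ _ _ he
      have h1 : s(v0, f v0) = s(f^[j + 1] v0, f^[j + 2] v0) := h
      rw [Sym2.eq_iff] at h1
      rcases h1 with ⟨h2, _⟩ | ⟨h2, h3⟩
      · exact hmin (j + 1) (by omega) (by omega) h2.symm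
      · -- `f v0 = f^[j+1] v0`, so `j = 0`, and then `f (f v0) = v0`
        have hj0 : j = 0 := by
          by_contra hne
          exact hdist 1 (j + 1) (by omega) (by omega) h3
        subst hj0
        exact hmin 2 (by omega) (by omega) h2.symm
  · simp only [p, SimpleGraph.Walk.length_cons, SimpleGraph.Walk.length_copy, itWalk_length]
    omega

end FlagHam
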