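import Pool.Agent.FlagHam.Cyc

/-!
# Two fixed point free involutions that connect a finite set make one cycle
-/

namespace FlagHam

variable {α : Type*}

/-- Two involutions `s, t` without fixed points on the finite set `S`, identity off `S`; if they
connect `S`, then there is a cyclic permutation of `S` whose edges are all the edges of `s`
and all the edges of `t`. -/
theorem two_involutions {adj : α → α → Prop} {S : Set α} (hfin : S.Finite)
    (s t : Equiv.Perm α) (hss : ∀ x, s (s x) = x) (htt : ∀ x, t (t x) = x)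
    (hsS : ∀ x ∈ S, s x ∈ S) (htS : ∀ x ∈ S, t x ∈ S)
    (hs0 : ∀ x, x ∉ S → s x = x) (ht0 : ∀ x, x ∉ S → t x = x)
    (hs1 : ∀ x ∈ S, s x ≠ x) (ht1 : ∀ x ∈ S, t x ≠ x)
    (hsa : ∀ x ∈ S, adj x (s x)) (hta : ∀ x ∈ S, adj x (t x))
    (hconn : ∀ x ∈ S, ∀ y ∈ S, Relation.ReflTransGen (fun a b => b = s a ∨ b = t a) x y) :
    ∃ σ : Equiv.Perm α, Cyc adj S σ ∧ (∀ x ∈ S, E σ x (s x)) ∧ (∀ x ∈ S, E σ x (t x)) := by
  classical
  by_cases hne : S.Nonempty
  swap
  · rw [Set.not_nonempty_iff_eq_empty] at hne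
    subst hne
    exact ⟨1, ⟨fun x _ => rfl, fun x hx => hx.elim, fun x hx => hx.elim⟩,
      fun x hx => hx.elim, fun x hx => hx.elim⟩
  obtain ⟨x0, hx0⟩ := hne
  set ρ : Equiv.Perm α := s * t with hρ
  have hsi : s⁻¹ = s := by
    ext x; rw [Equiv.Perm.inv_eq_iff_eq]; exact (hss x).symm
  have hti : t⁻¹ = t := by
    ext x; rw [Equiv.Perm.inv_eq_iff_eq]; exact (htt x).symm
  have hsρ : s * ρ = t := by
    ext x; simp [hρ, hss]
  have hρi : ρ⁻¹ = t * s := by
    rw [hρ, mul_inv_rev, hsi, hti]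
  have hconj : s * ρ * s⁻¹ = ρ⁻¹ := by
    rw [hsρ, hρi, hsi]
  have hsz : ∀ (k : ℤ) (x : α), s ((ρ ^ k) x) = (ρ ^ (-k)) (s x) := by
    intro k x
    have h1 : s * ρ ^ k * s⁻¹ = ρ ^ (-k) := by
      rw [← conj_zpow, hconj, inv_zpow, zpow_neg]
    have h2 : s * ρ ^ k = ρ ^ (-k) * s := by
      rw [← h1]; group
    have := congrArg (fun g : Equiv.Perm α => g x) h2
    simpa [Equiv.Perm.mul_apply] using this
  have hρS : ∀ x ∈ S, ρ x ∈ S := fun x hx => hsS _ (htS _ hx)
  have hρiS : ∀ x ∈ S, ρ⁻¹ x ∈ S := by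
    intro x hx; rw [hρi]; exact htS _ (hsS _ hx)
  have hρzS : ∀ (k : ℤ), ∀ x ∈ S, (ρ ^ k) x ∈ S := by
    intro k
    induction k using Int.induction_on with
    | zero => intro x hx; simpa using hx
    | succ n ih =>
      intro x hx
      rw [zpow_add_one, Equiv.Perm.mul_apply]
      exact ih _ (hρS x hx)
    | pred n ih =>
      intro x hx
      rw [zpow_sub_one, Equiv.Perm.mul_apply]
      exact ih _ (hρiS x hx)
  set A : Set α := {x | ∃ k : ℤ, (ρ ^ k) x0 = x} with hA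
  have hAS : A ⊆ S := by
    rintro x ⟨k, rfl⟩; exact hρzS k x0 hx0
  have hAρ : ∀ x ∈ A, ρ x ∈ A := by
    rintro x ⟨k, rfl⟩
    exact ⟨1 + k, by rw [zpow_add, Equiv.Perm.mul_apply, zpow_one]⟩
  have hAρi : ∀ x ∈ A, ρ⁻¹ x ∈ A := by
    rintro x ⟨k, rfl⟩
    exact ⟨-1 + k, by rw [zpow_add, Equiv.Perm.mul_apply, zpow_neg_one]⟩
  -- `s` leaves `A`
  have hsA : ∀ x ∈ A, s x ∉ A := by
    rintro x ⟨i, rfl⟩ ⟨j, hj⟩
    -- s ρ^i x0 = ρ^j x0
    rw [hsz] at hj
    have h1 : s x0 = (ρ ^ (i + j)) x0 := by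
      rw [zpow_add, Equiv.Perm.mul_apply, hj, ← Equiv.Perm.mul_apply, ← zpow_add]
      simp
    rcases Int.even_or_odd (i + j) with ⟨n, hn⟩ | ⟨n, hn⟩
    · have h2 : s ((ρ ^ n) x0) = (ρ ^ n) x0 := by
        rw [hsz, h1, hn, ← Equiv.Perm.mul_apply, ← zpow_add]
        congr 2; ring
      exact hs1 _ (hρzS n x0 hx0) h2
    · have h2 : t ((ρ ^ n) x0) = (ρ ^ n) x0 := by
        rw [← hsρ, Equiv.Perm.mul_apply, ← Equiv.Perm.mul_apply ρ (ρ ^ n), ← zpow_one_add,
          hsz, h1, hn, ← Equiv.Perm.mul_apply, ← zpow_add]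
        congr 2; ring
      exact ht1 _ (hρzS n x0 hx0) h2
  have htA : ∀ x ∈ A, t x ∉ A := by
    intro x hx h
    have h1 : s (s (t x)) ∉ A := by
      intro h2
      refine hsA _ h ?_
      have : s (t x) = ρ x := rfl
      rw [this]; exact hAρ x hx
    rw [hss] at h1
    exact h1 h
  -- everything is in `A` or `s '' A`
  have hcov : ∀ y ∈ S, y ∈ A ∨ s y ∈ A := by
    intro y hy
    have h0 : x0 ∈ A := ⟨0, by simp⟩
    have hpath := hconn x0 hx0 y hy
    induction hpath with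
    | refl => exact Or.inl h0
    | tail hab hbc ih =>
      rename_i b c
      -- need b ∈ S
      have hbS : b ∈ S := by
        rcases hbc with h | h
        · by_contra hb
          rw [hs0 b hb] at h
          exact hb (h ▸ hy)
        · by_contra hb
          rw [ht0 b hb] at h
          exact hb (h ▸ hy)
      rcases ih hbS with hb | hb
      · rcases hbc with h | h
        · right; rw [h, hss]; exact hb
        · right
          rw [h]
          have : s (t b) = ρ b := rfl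
          rw [this]; exact hAρ b hb
      · rcases hbc with h | h
        · left; rw [h]; exact hb
        · left
          rw [h]
          have : t b = ρ⁻¹ (s b) := by rw [hρi, Equiv.Perm.mul_apply, hss]
          rw [this]; exact hAρi _ hb
  have htB : ∀ y ∈ S, y ∉ A → t y ∈ A := by
    intro y hy hyA
    rcases hcov y hy with h | h
    · exact absurd h hyA
    · have : t y = ρ⁻¹ (s y) := by rw [hρi, Equiv.Perm.mul_apply, hss]
      rw [this]; exact hAρi _ h
  have hsB : ∀ y ∈ S, y ∉ A → s y ∈ A := by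
    intro y hy hyA
    rcases hcov y hy with h | h
    · exact absurd h hyA
    · exact h
  -- the permutation
  let f : α → α := fun x => if x ∈ A then s x else t x
  let g : α → α := fun x => if x ∈ A then t x else s x
  have hgf : ∀ x, g (f x) = x := by
    intro x
    by_cases hx : x ∈ A
    · have h1 : f x = s x := if_pos hx
      rw [h1]
      have h2 : g (s x) = s (s x) := if_neg (hsA x hx)
      rw [h2, hss]
    · have h1 : f x = t x := if_neg hx
      rw [h1]
      by_cases hxS : x ∈ S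
      · have h2 : g (t x) = t (t x) := if_pos (htB x hxS hx)
        rw [h2, htt]
      · rw [ht0 x hxS]
        have h2 : g x = s x := if_neg hx
        rw [h2, hs0 x hxS]
  have hfg : ∀ x, f (g x) = x := by
    intro x
    by_cases hx : x ∈ A
    · have h1 : g x = t x := if_pos hx
      rw [h1]
      have h2 : f (t x) = t (t x) := if_neg (htA x hx)
      rw [h2, htt]
    · have h1 : g x = s x := if_neg hx
      rw [h1]
      by_cases hxS : x ∈ S
      · have h2 : f (s x) = s (s x) := if_pos (hsB x hxS hx)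
        rw [h2, hss]
      · rw [hs0 x hxS]
        have h2 : f x = t x := if_neg hx
        rw [h2, ht0 x hxS]
  let σ : Equiv.Perm α := ⟨f, g, hgf, hfg⟩
  have hσ1 : ∀ x ∈ A, σ x = s x := fun x hx => if_pos hx
  have hσ2 : ∀ x, x ∉ A → σ x = t x := fun x hx => if_neg hx
  have hσσ : ∀ x ∈ A, σ (σ x) = ρ⁻¹ x := by
    intro x hx
    rw [hσ1 x hx, hσ2 _ (hsA x hx), hρi]
    rfl
  -- iterates of `ρ⁻¹` on `A`
  have hit : ∀ (n : ℕ), ∀ x ∈ A, Reach σ x ((ρ⁻¹ ^ n) x) := by
    intro n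
    induction n with
    | zero => intro x _; exact Reach.refl _ _
    | succ n ih =>
      intro x hx
      have h1 : Reach σ x (ρ⁻¹ x) := ⟨2, hσσ x hx⟩
      have h2 := ih (ρ⁻¹ x) (hAρi x hx)
      rw [pow_succ, Equiv.Perm.mul_apply]
      exact h1.trans h2
  -- periodicity
  have hper : ∃ N : ℕ, 0 < N ∧ (ρ⁻¹ ^ N) x0 = x0 := by
    have hmaps : ∀ n : ℕ, (ρ⁻¹ ^ n) x0 ∈ S := by
      intro n
      have := hρzS (-(n : ℤ)) x0 hx0
      rwa [zpow_neg, ← inv_zpow, zpow_natCast] at this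
    have : ¬ Function.Injective (fun n : ℕ => (⟨(ρ⁻¹ ^ n) x0, hmaps n⟩ : S)) := by
      intro hinj
      have : Finite S := hfin
      exact not_injective_infinite_finite _ hinj
    simp only [Function.Injective, not_forall] at this
    obtain ⟨a, b, hab, hne⟩ := this
    have hab' : (ρ⁻¹ ^ a) x0 = (ρ⁻¹ ^ b) x0 := congrArg Subtype.val hab
    rcases Nat.lt_or_gt_of_ne hne with h | h
    · refine ⟨b - a, by omega, ?_⟩
      have h2 : ρ⁻¹ ^ b = ρ⁻¹ ^ a * ρ⁻¹ ^ (b - a) := by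
        rw [← pow_add]; congr 1; omega
      rw [h2, Equiv.Perm.mul_apply] at hab'
      exact ((ρ⁻¹ ^ a).injective hab').symm
    · refine ⟨a - b, by omega, ?_⟩
      have h2 : ρ⁻¹ ^ a = ρ⁻¹ ^ b * ρ⁻¹ ^ (a - b) := by
        rw [← pow_add]; congr 1; omega
      rw [h2, Equiv.Perm.mul_apply] at hab'
      exact (ρ⁻¹ ^ b).injective hab'
  obtain ⟨N, hN, hNx⟩ := hper
  have hNm : ∀ m : ℕ, (ρ⁻¹ ^ (N * m)) x0 = x0 := by
    intro m
    induction m with
    | zero => simp
    | succ m ih =>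
      rw [Nat.mul_succ, pow_add, Equiv.Perm.mul_apply, hNx, ih]
  -- all points of `A` are reached from `x0`, and `x0` from all of them
  have hA1 : ∀ y ∈ A, Reach σ x0 y := by
    rintro y ⟨k, rfl⟩
    -- ρ^k x0 = ρ⁻¹^(N |k| - k) x0
    have hk : ∃ n : ℕ, (n : ℤ) = N * k.natAbs - k := by
      refine ⟨(N * k.natAbs - k : ℤ).toNat, ?_⟩
      rw [Int.toNat_of_nonneg]
      have h1 : (k : ℤ) ≤ k.natAbs := by omega
      have h2 : (k.natAbs : ℤ) ≤ N * k.natAbs := by
        have : (1 : ℤ) ≤ N := by exact_mod_cast hN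
        nlinarith [Int.natCast_nonneg k.natAbs]
      linarith
    obtain ⟨n, hn⟩ := hk
    have h1 : (ρ⁻¹ ^ n) x0 = (ρ ^ k) x0 := by
      have h2 : (ρ⁻¹ ^ n : Equiv.Perm α) = ρ ^ k * ρ⁻¹ ^ (N * k.natAbs) := by
        rw [← zpow_natCast, ← zpow_natCast, inv_zpow', inv_zpow', ← zpow_add]
        congr 1
        rw [hn]; push_cast; ring
      rw [h2, Equiv.Perm.mul_apply, hNm]
    rw [← h1]
    exact hit n x0 ⟨0, by simp⟩
  have hA2 : ∀ y ∈ A, Reach σ y x0 := by
    rintro y ⟨k, rfl⟩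
    -- ρ⁻¹^(N|k| + k) ρ^k x0 = x0
    have hk : ∃ n : ℕ, (n : ℤ) = N * k.natAbs + k := by
      refine ⟨(N * k.natAbs + k : ℤ).toNat, ?_⟩
      rw [Int.toNat_of_nonneg]
      have h1 : (-k : ℤ) ≤ k.natAbs := by omega
      have h2 : (k.natAbs : ℤ) ≤ N * k.natAbs := by
        have : (1 : ℤ) ≤ N := by exact_mod_cast hN
        nlinarith [Int.natCast_nonneg k.natAbs]
      linarith
    obtain ⟨n, hn⟩ := hk
    have h1 : (ρ⁻¹ ^ n) ((ρ ^ k) x0) = x0 := by
      have h2 : (ρ⁻¹ ^ n * ρ ^ k : Equiv.Perm α) = ρ⁻¹ ^ (N * k.natAbs) := by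
        rw [← zpow_natCast, ← zpow_natCast, inv_zpow', inv_zpow', ← zpow_add]
        congr 1
        rw [hn]; push_cast; ring
      rw [← Equiv.Perm.mul_apply, h2, hNm]
    have h3 := hit n ((ρ ^ k) x0) ⟨k, rfl⟩
    rw [h1] at h3
    exact h3
  have hS1 : ∀ y ∈ S, Reach σ x0 y := by
    intro y hy
    by_cases hyA : y ∈ A
    · exact hA1 y hyA
    · have h1 := hA1 (s y) (hsB y hy hyA)
      have h2 : σ (s y) = y := by rw [hσ1 _ (hsB y hy hyA), hss]
      exact h1.trans ⟨1, h2⟩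
  have hS2 : ∀ y ∈ S, Reach σ y x0 := by
    intro y hy
    by_cases hyA : y ∈ A
    · exact hA2 y hyA
    · have h2 : σ y = t y := hσ2 y hyA
      exact Reach.trans ⟨1, h2⟩ (hA2 _ (htB y hy hyA))
  refine ⟨σ, ⟨?_, ?_, ?_⟩, ?_, ?_⟩
  · intro x hx
    rw [hσ2 x (fun h => hx (hAS h)), ht0 x hx]
  · intro x hx
    by_cases hxA : x ∈ A
    · rw [hσ1 x hxA]; exact hsa x hx
    · rw [hσ2 x hxA]; exact hta x hx
  · intro x hx y hy
    exact (hS2 x hx).trans (hS1 y hy)
  · intro x hx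
    by_cases hxA : x ∈ A
    · left; exact hσ1 x hxA
    · right; rw [hσ1 _ (hsB x hx hxA), hss]
  · intro x hx
    by_cases hxA : x ∈ A
    · right; rw [hσ2 _ (htA x hxA), htt]
    · left; exact hσ2 x hxA

end FlagHam
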