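import Pool.Agent.FlagHam.Defs
import Pool.Agent.FlagHam.Two
import Mathlib.Order.Atoms.Finite

/-!
# Basic facts on abstract polytopes and their saturated chains
-/

namespace FlagHam

variable {P : Type*}

/-! ## Lists -/

theorem Differ.symm {l m : List P} (h : Differ l m) : Differ m l := by
  obtain ⟨a, x, y, b, hxy, h1, h2⟩ := h
  exact ⟨a, y, x, b, hxy.symm, h2, h1⟩

theorem Differ.ne {l m : List P} (h : Differ l m) : l ≠ m := by
  obtain ⟨a, x, y, b, hxy, h1, h2⟩ := h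
  rintro rfl
  rw [h1] at h2
  exact hxy (List.cons.inj (List.append_cancel_left h2)).1

theorem Differ.cons {l m : List P} (G : P) (h : Differ l m) : Differ (G :: l) (G :: m) := by
  obtain ⟨a, x, y, b, hxy, h1, h2⟩ := h
  exact ⟨G :: a, x, y, b, hxy, by rw [h1]; rfl, by rw [h2]; rfl⟩

theorem differ_head {G H : P} (l : List P) (h : G ≠ H) : Differ (G :: l) (H :: l) :=
  ⟨[], G, H, l, h, rfl, rfl⟩

/-- Two lists do not start with the same entry. -/
def Cross (x y : List P) : Prop := ¬ ∃ (R : P) (x' y' : List P), x = R :: x' ∧ y = R :: y'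

theorem Cross.symm {x y : List P} (h : Cross x y) : Cross y x := by
  rintro ⟨R, x', y', h1, h2⟩
  exact h ⟨R, y', x', h2, h1⟩

/-- The embedding `l ↦ G :: l`. -/
def consEmb (G : P) : List P ↪ List P := ⟨fun l => G :: l, fun _ _ h => (List.cons.inj h).2⟩

@[simp] theorem consEmb_apply (G : P) (l : List P) : consEmb G l = G :: l := rfl

/-! ## Chains -/

variable [PartialOrder P] [BoundedOrder P]

/-- The saturated chains below `F`. -/
def Fl (F : P) : Set (List P) := {l | Sat F l}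

theorem mem_Fl_nil {F : P} : [] ∈ Fl F ↔ F = ⊥ := Iff.rfl

theorem mem_Fl_cons {F G : P} {l : List P} : G :: l ∈ Fl F ↔ G ⋖ F ∧ l ∈ Fl G := Iff.rfl

theorem not_covBy_bot (G : P) : ¬ G ⋖ ⊥ := fun h => not_lt_bot h.lt

variable {rk : P → ℕ}

theorem IsPolytope.rk_eq_zero [Finite P] (hP : IsPolytope P rk) {F : P} (h : rk F = 0) :
    F = ⊥ := by
  by_contra hne
  obtain ⟨G, _, hG⟩ := exists_le_covBy_of_lt (bot_lt_iff_ne_bot.mpr hne)
  have := hP.rk_cov G F hG
  omega

theorem exists_facet [Finite P] {F : P} (h : F ≠ ⊥) : ∃ G, G ⋖ F := by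
  obtain ⟨G, _, hG⟩ := exists_le_covBy_of_lt (bot_lt_iff_ne_bot.mpr h)
  exact ⟨G, hG⟩

theorem exists_chain [Finite P] (F : P) : ∃ l, l ∈ Fl F := by
  induction F using WellFoundedLT.induction with
  | ind F ih =>
    by_cases h : F = ⊥
    · exact ⟨[], h⟩
    · obtain ⟨G, hG⟩ := exists_facet h
      obtain ⟨l, hl⟩ := ih G hG.lt
      exact ⟨G :: l, hG, hl⟩

theorem Fl_length (hP : IsPolytope P rk) {F : P} {l : List P} (h : l ∈ Fl F) :
    l.length = rk F := by
  induction l generalizing F with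
  | nil => rw [mem_Fl_nil.mp h, hP.rk_bot]; rfl
  | cons G l ih =>
    rw [hP.rk_cov G F h.1, ← ih h.2]; rfl

theorem ne_bot_of_rk (hP : IsPolytope P rk) {F : P} (h : 0 < rk F) : F ≠ ⊥ := by
  rintro rfl
  rw [hP.rk_bot] at h
  exact lt_irrefl _ h

/-- In a diamond there is another middle face. -/
theorem other (hP : IsPolytope P rk) {R G F : P} (h1 : R ⋖ G) (h2 : G ⋖ F) :
    ∃ H, H ≠ G ∧ R ⋖ H ∧ H ⋖ F ∧ ∀ X, R ⋖ X → X ⋖ F → X = G ∨ X = H := by
  obtain ⟨A, B, hAB, hX⟩ := hP.diamond R F ⟨G, h1, h2⟩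
  rcases (hX G).mp ⟨h1, h2⟩ with rfl | rfl
  · obtain ⟨h3, h4⟩ := (hX B).mpr (Or.inr rfl)
    exact ⟨B, hAB.symm, h3, h4, fun X hx hy => (hX X).mp ⟨hx, hy⟩⟩
  · obtain ⟨h3, h4⟩ := (hX A).mpr (Or.inl rfl)
    exact ⟨A, hAB, h3, h4, fun X hx hy => ((hX X).mp ⟨hx, hy⟩).symm⟩

/-- Among three middle faces of a diamond two are equal. -/
theorem at_most_two (hP : IsPolytope P rk) {R F A B C : P} (hA : R ⋖ A ∧ A ⋖ F)
    (hB : R ⋖ B ∧ B ⋖ F) (hC : R ⋖ C ∧ C ⋖ F) : A = B ∨ A = C ∨ B = C := by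
  obtain ⟨G, H, _, hX⟩ := hP.diamond R F ⟨A, hA⟩
  rcases (hX A).mp hA with rfl | rfl <;> rcases (hX B).mp hB with rfl | rfl <;>
    rcases (hX C).mp hC with rfl | rfl <;> simp

/-- Faces of rank at least 2 have two different chains with different second entries. -/
theorem exists_two_heads [Finite P] (hP : IsPolytope P rk) {F : P} (h : 2 ≤ rk F) :
    ∃ (G H : P) (l : List P), G ≠ H ∧ G :: l ∈ Fl F ∧ H :: l ∈ Fl F := by
  obtain ⟨l, hl⟩ := exists_chain F
  have hlen := Fl_length hP hl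
  match l, hl, hlen with
  | [], _, hlen => simp at hlen; omega
  | [G], _, hlen => simp at hlen; omega
  | G :: R :: l, hl, _ =>
    obtain ⟨H, hne, h3, h4, _⟩ := other hP hl.2.1 hl.1
    exact ⟨G, H, R :: l, hne.symm, hl, h4, h3, hl.2.2⟩

/-- A cyclic permutation of the chains below `F` (rank at least 3) has two crossing edges
which are different as unordered pairs. -/
theorem two_cross [Finite P] (hP : IsPolytope P rk) {F : P} (h : 3 ≤ rk F)
    {σ : Equiv.Perm (List P)} (hσ : Cyc Differ (Fl F) σ) :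
    ∃ x ∈ Fl F, ∃ y ∈ Fl F, Cross x (σ x) ∧ Cross y (σ y) ∧ x ≠ y ∧ ¬ (x = σ y ∧ σ x = y) := by
  obtain ⟨G, H, l, hGH, hG, hH⟩ := exists_two_heads hP (by omega : 2 ≤ rk F)
  -- A = chains starting with G
  set A : Set (List P) := {x | x ∈ Fl F ∧ ∃ x', x = G :: x'} with hA
  have hnA : H :: l ∉ A := by
    rintro ⟨_, x', hx'⟩
    exact hGH (List.cons.inj hx').1.symm
  -- leaving A
  have hleave : ∃ x ∈ A, σ x ∉ A := by
    by_contra hcon
    push Not at hcon
    obtain ⟨k, hk⟩ := hσ.trans (G :: l) hG (H :: l) hH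
    have : ∀ k : ℕ, (⇑σ)^[k] (G :: l) ∈ A := by
      intro k
      induction k with
      | zero => exact ⟨hG, l, rfl⟩
      | succ k ih =>
        rw [Function.iterate_succ_apply']
        exact hcon _ ih
    exact hnA (hk ▸ this k)
  have henter : ∃ y ∈ Fl F, y ∉ A ∧ σ y ∈ A := by
    by_contra hcon
    push Not at hcon
    obtain ⟨k, hk⟩ := hσ.trans (H :: l) hH (G :: l) hG
    have : ∀ k : ℕ, (⇑σ)^[k] (H :: l) ∈ Fl F ∧ (⇑σ)^[k] (H :: l) ∉ A := by
      intro k
      induction k with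
      | zero => exact ⟨hH, hnA⟩
      | succ k ih =>
        rw [Function.iterate_succ_apply']
        exact ⟨hσ.mem ih.1, hcon _ ih.1 ih.2⟩
    exact (this k).2 (hk ▸ ⟨hG, l, rfl⟩)
  obtain ⟨x, hxA, hx⟩ := hleave
  obtain ⟨y, hy, hyA, hyA'⟩ := henter
  refine ⟨x, hxA.1, y, hy, ?_, ?_, ?_, ?_⟩
  · rintro ⟨R, x', y', h1, h2⟩
    obtain ⟨hxF, x'', h3⟩ := hxA
    rw [h1] at h3
    have h4 := (List.cons.inj h3).1
    subst h4
    exact hx ⟨hσ.mem hxF, y', h2⟩
  · rintro ⟨R, x', y', h1, h2⟩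
    obtain ⟨_, x'', h3⟩ := hyA'
    rw [h2] at h3
    have h4 := (List.cons.inj h3).1
    subst h4
    exact hyA ⟨hy, x', h1⟩
  · rintro rfl
    exact hyA hxA
  · rintro ⟨h1, h2⟩
    -- then σ has a 2-cycle, but A has two elements
    have hG2 : 2 ≤ rk G := by
      have := hP.rk_cov G F hG.1
      omega
    obtain ⟨R, R', m, hR, hm1, hm2⟩ := exists_two_heads hP hG2
    have hcl : ∀ k : ℕ, (⇑σ)^[k] x = x ∨ (⇑σ)^[k] x = y := by
      intro k
      induction k with
      | zero => left; rfl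
      | succ k ih =>
        rw [Function.iterate_succ_apply']
        rcases ih with h | h
        · right; rw [h, h2]
        · left; rw [h, h1]
    have hall : ∀ z ∈ A, z = x := by
      intro z hz
      obtain ⟨k, hk⟩ := hσ.trans x hxA.1 z hz.1
      rcases hcl k with h | h
      · rw [← hk, h]
      · exfalso
        rw [hk] at h
        exact hyA (h ▸ hz)
    have e1 := hall (G :: R :: m) ⟨⟨hG.1, hm1⟩, _, rfl⟩
    have e2 := hall (G :: R' :: m) ⟨⟨hG.1, hm2⟩, _, rfl⟩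
    rw [← e2] at e1
    have := (List.cons.inj (List.cons.inj e1).2).1
    exact hR this

end FlagHam
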