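import Pool.Agent.FlagHam.Poly

/-!
# The chains through one vertex, when any two edges at a vertex span a 2-face
-/

namespace FlagHam

section cyclic

variable {α : Type*}

theorem perm_apply_inv (c : Equiv.Perm α) (x : α) : c (c⁻¹ x) = x := by
  have h : (c * c⁻¹) x = x := by rw [mul_inv_cancel]; rfl
  exact h

theorem perm_inv_apply (c : Equiv.Perm α) (x : α) : c⁻¹ (c x) = x := by
  have h : (c⁻¹ * c) x = x := by rw [inv_mul_cancel]; rfl
  exact h

/-- A finite set with two different points has a cyclic permutation taking one to the other. -/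
theorem exists_cyclic {S : Set α} (hS : S.Finite) {a b : α} (ha : a ∈ S) (hb : b ∈ S)
    (hab : a ≠ b) : ∃ c : Equiv.Perm α, Cyc (fun _ _ => True) S c ∧ c a = b := by
  classical
  have key : ∀ T : Set α, T.Finite → a ∉ T → b ∉ T →
      ∃ c : Equiv.Perm α, Cyc (fun _ _ => True) ({a, b} ∪ T) c ∧ c a = b := by
    intro T hT
    induction T, hT using Set.Finite.induction_on with
    | empty =>
      intro _ _
      refine ⟨Equiv.swap a b, ⟨?_, fun _ _ => trivial, ?_⟩, Equiv.swap_apply_left a b⟩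
      · intro x hx
        have h1 : x ≠ a := fun h => hx (Or.inl (Or.inl h))
        have h2 : x ≠ b := fun h => hx (Or.inl (Or.inr h))
        exact Equiv.swap_apply_of_ne_of_ne h1 h2
      · rintro x (hx | hx) y (hy | hy)
        · rcases hx with rfl | hx <;> rcases hy with rfl | hy
          · exact ⟨0, rfl⟩
          · rw [Set.mem_singleton_iff] at hy
            subst hy
            exact ⟨1, Equiv.swap_apply_left x y⟩
          · rw [Set.mem_singleton_iff] at hx
            subst hx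
            exact ⟨1, Equiv.swap_apply_right y x⟩
          · rw [Set.mem_singleton_iff] at hx hy
            subst hx
            subst hy
            exact ⟨0, rfl⟩
        · exact hy.elim
        · exact hx.elim
        · exact hx.elim
    | @insert x T hxT _ ih =>
      intro haT hbT
      have haT' : a ∉ T := fun h => haT (Set.mem_insert_of_mem _ h)
      have hbT' : b ∉ T := fun h => hbT (Set.mem_insert_of_mem _ h)
      have hax : a ≠ x := fun h => haT (h ▸ Set.mem_insert _ _)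
      have hbx : b ≠ x := fun h => hbT (h ▸ Set.mem_insert _ _)
      obtain ⟨c, hc, hcab⟩ := ih haT' hbT'
      have hone : Cyc (fun _ _ => True) ({x} : Set α) (1 : Equiv.Perm α) := by
        refine ⟨fun _ _ => rfl, fun _ _ => trivial, ?_⟩
        intro y hy z hz
        rw [Set.mem_singleton_iff] at hy hz
        subst hy
        exact ⟨0, hz.symm⟩
      have hdis : Disjoint (({a, b} : Set α) ∪ T) {x} := by
        rw [Set.disjoint_singleton_right]
        rintro ((h | h) | h)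
        · exact hax h.symm
        · exact hbx h.symm
        · exact hxT h
      obtain ⟨τ, hτ, t1, _⟩ := Cyc.merge₀ hc hone hdis (a := b) (d := x)
        (Or.inl (Or.inr rfl)) rfl trivial trivial
      refine ⟨τ, ?_, ?_⟩
      · have : ({a, b} : Set α) ∪ insert x T = ({a, b} ∪ T) ∪ {x} := by
          ext y; simp only [Set.mem_union, Set.mem_insert_iff, Set.mem_singleton_iff]; tauto
        rw [this]
        exact hτ
      · rw [t1 a (Or.inl (Or.inl rfl)) hab, hcab]
  obtain ⟨c, hc, hcab⟩ := key (S \ {a, b}) (hS.subset Set.sdiff_subset)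
    (fun h => h.2 (Or.inl rfl)) (fun h => h.2 (Or.inr rfl))
  refine ⟨c, ?_, hcab⟩
  have : ({a, b} : Set α) ∪ (S \ {a, b}) = S := by
    ext y
    simp only [Set.mem_union, Set.mem_insert_iff, Set.mem_singleton_iff, Set.mem_sdiff]
    constructor
    · rintro ((rfl | rfl) | h)
      · exact ha
      · exact hb
      · exact h.1
    · intro hy
      by_cases h : y = a ∨ y = b
      · exact Or.inl h
      · exact Or.inr ⟨hy, h⟩
  rwa [this] at hc

/-- The ordered pairs of different elements of a set. -/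
abbrev Prs (S : Set α) := {p : α × α // p.1 ∈ S ∧ p.2 ∈ S ∧ p.1 ≠ p.2}

open Classical in
/-- The step of the pair cycle. -/
noncomputable def prStep {S : Set α} {c : Equiv.Perm α} (hc : Cyc (fun _ _ => True) S c)
    (p : Prs S) : Prs S :=
  if h : p.1.2 = c p.1.1 then ⟨(p.1.2, p.1.1), p.2.2.1, p.2.1, p.2.2.2.symm⟩
  else ⟨(p.1.1, c⁻¹ p.1.2), p.2.1, by
    have h1 := hc.inv (fun _ _ _ => trivial)
    exact h1.mem p.2.2.1, by
    intro h2
    apply h
    change p.1.1 = c⁻¹ p.1.2 at h2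
    rw [Equiv.Perm.eq_inv_iff_eq] at h2
    exact h2.symm⟩

open Classical in
/-- The inverse step of the pair cycle. -/
noncomputable def prBack {S : Set α} {c : Equiv.Perm α} (hc : Cyc (fun _ _ => True) S c)
    (p : Prs S) : Prs S :=
  if h : p.1.1 = c p.1.2 then ⟨(p.1.2, p.1.1), p.2.2.1, p.2.1, p.2.2.2.symm⟩
  else ⟨(p.1.1, c p.1.2), p.2.1, hc.mem p.2.2.1, h⟩

theorem prStep_pos {S : Set α} {c : Equiv.Perm α} (hc : Cyc (fun _ _ => True) S c)
    {p : Prs S} (h : p.1.2 = c p.1.1) : (prStep hc p).1 = (p.1.2, p.1.1) := by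
  unfold prStep; rw [dif_pos h]

theorem prStep_neg {S : Set α} {c : Equiv.Perm α} (hc : Cyc (fun _ _ => True) S c)
    {p : Prs S} (h : p.1.2 ≠ c p.1.1) : (prStep hc p).1 = (p.1.1, c⁻¹ p.1.2) := by
  unfold prStep; rw [dif_neg h]

theorem prBack_pos {S : Set α} {c : Equiv.Perm α} (hc : Cyc (fun _ _ => True) S c)
    {p : Prs S} (h : p.1.1 = c p.1.2) : (prBack hc p).1 = (p.1.2, p.1.1) := by
  unfold prBack; rw [dif_pos h]

theorem prBack_neg {S : Set α} {c : Equiv.Perm α} (hc : Cyc (fun _ _ => True) S c)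
    {p : Prs S} (h : p.1.1 ≠ c p.1.2) : (prBack hc p).1 = (p.1.1, c p.1.2) := by
  unfold prBack; rw [dif_neg h]

theorem prBack_prStep {S : Set α} {c : Equiv.Perm α} (hc : Cyc (fun _ _ => True) S c)
    (p : Prs S) : prBack hc (prStep hc p) = p := by
  apply Subtype.ext
  by_cases h : p.1.2 = c p.1.1
  · have h1 := prStep_pos hc h
    have h2 : (prStep hc p).1.1 = c (prStep hc p).1.2 := by rw [h1]; exact h
    rw [prBack_pos hc h2, h1]
  · have h1 := prStep_neg hc h
    have h2 : (prStep hc p).1.1 ≠ c (prStep hc p).1.2 := by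
      rw [h1]
      change p.1.1 ≠ c (c⁻¹ p.1.2)
      rw [perm_apply_inv]
      exact p.2.2.2
    rw [prBack_neg hc h2, h1]
    change (p.1.1, c (c⁻¹ p.1.2)) = p.1
    rw [perm_apply_inv]

theorem prStep_prBack {S : Set α} {c : Equiv.Perm α} (hc : Cyc (fun _ _ => True) S c)
    (p : Prs S) : prStep hc (prBack hc p) = p := by
  apply Subtype.ext
  by_cases h : p.1.1 = c p.1.2
  · have h1 := prBack_pos hc h
    have h2 : (prBack hc p).1.2 = c (prBack hc p).1.1 := by rw [h1]; exact h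
    rw [prStep_pos hc h2, h1]
  · have h1 := prBack_neg hc h
    have h2 : (prBack hc p).1.2 ≠ c (prBack hc p).1.1 := by
      rw [h1]
      change c p.1.2 ≠ c p.1.1
      exact fun h3 => p.2.2.2 (c.injective h3).symm
    rw [prStep_neg hc h2, h1]
    change (p.1.1, c⁻¹ (c p.1.2)) = p.1
    rw [perm_inv_apply]

/-- The pair cycle. -/
noncomputable def prPerm {S : Set α} {c : Equiv.Perm α} (hc : Cyc (fun _ _ => True) S c) :
    Equiv.Perm (Prs S) :=
  ⟨prStep hc, prBack hc, prBack_prStep hc, prStep_prBack hc⟩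

theorem prPerm_trans {S : Set α} {c : Equiv.Perm α} (hc : Cyc (fun _ _ => True) S c)
    (p q : Prs S) : Reach (prPerm hc) p q := by
  have happ : ∀ p, prPerm hc p = prStep hc p := fun _ => rfl
  -- down to the end of the clique
  have h1 : ∀ (m : ℕ) (p : Prs S), p.1.2 = (⇑c)^[m] p.1.1 →
      ∃ q : Prs S, q.1 = (p.1.1, c p.1.1) ∧ Reach (prPerm hc) p q := by
    intro m
    induction m with
    | zero => intro p hp; exact absurd hp.symm p.2.2.2
    | succ m ih =>
      intro p hp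
      by_cases h : p.1.2 = c p.1.1
      · exact ⟨p, by rw [← h], Reach.refl _ _⟩
      · have h2 := prStep_neg hc h
        have h3 : (prStep hc p).1.2 = (⇑c)^[m] (prStep hc p).1.1 := by
          rw [h2]
          change c⁻¹ p.1.2 = (⇑c)^[m] p.1.1
          rw [hp, Function.iterate_succ_apply', perm_inv_apply]
        obtain ⟨q, hq, hr⟩ := ih (prStep hc p) h3
        rw [h2] at hq
        exact ⟨q, hq, Reach.trans ⟨1, happ p⟩ hr⟩
  -- from the start of the clique
  have h2 : ∀ (m : ℕ) (q : Prs S), q.1.1 = (⇑c)^[m] q.1.2 → ∀ s : Prs S,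
      s.1 = (q.1.1, c⁻¹ q.1.1) → Reach (prPerm hc) s q := by
    intro m
    induction m with
    | zero => intro q hq; exact absurd hq q.2.2.2
    | succ m ih =>
      intro q hq s hs
      by_cases h : c q.1.2 = q.1.1
      · have : s = q := by
          apply Subtype.ext
          rw [hs]
          have : c⁻¹ q.1.1 = q.1.2 := by rw [Equiv.Perm.inv_eq_iff_eq, h]
          rw [this]
        rw [this]
        exact Reach.refl _ _
      · -- the predecessor
        let r : Prs S := ⟨(q.1.1, c q.1.2), q.2.1, hc.mem q.2.2.1, fun h' => h h'.symm⟩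
        have hr : r.1.1 = (⇑c)^[m] r.1.2 := by
          change q.1.1 = (⇑c)^[m] (c q.1.2)
          rw [hq]
          rfl
        have hsr := ih r hr s hs
        have h3 : r.1.2 ≠ c r.1.1 := by
          change c q.1.2 ≠ c q.1.1
          exact fun h4 => q.2.2.2 (c.injective h4).symm
        have h4 : prPerm hc r = q := by
          rw [happ]
          apply Subtype.ext
          rw [prStep_neg hc h3]
          change (q.1.1, c⁻¹ (c q.1.2)) = q.1
          rw [perm_inv_apply]
        exact hsr.trans ⟨1, h4⟩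
  -- from the start of a clique to the start of the clique `k` steps further
  have h3 : ∀ (k : ℕ) (i : α), i ∈ S → ∀ s : Prs S, s.1 = (i, c⁻¹ i) →
      ∃ t : Prs S, t.1 = ((⇑c)^[k] i, c⁻¹ ((⇑c)^[k] i)) ∧ Reach (prPerm hc) s t := by
    intro k
    induction k with
    | zero => intro i _ s hs; exact ⟨s, hs, Reach.refl _ _⟩
    | succ k ih =>
      intro i hi s hs
      obtain ⟨t, ht, hst⟩ := ih i hi s hs
      obtain ⟨m, hm⟩ := hc.trans t.1.1 t.2.1 t.1.2 t.2.2.1
      obtain ⟨e, he, hte⟩ := h1 m t hm.symm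
      have hstep : e.1.2 = c e.1.1 := by rw [he]
      have h4 := prStep_pos hc hstep
      rw [he] at h4
      have ht1 : t.1.1 = (⇑c)^[k] i := by rw [ht]
      rw [ht1] at h4
      refine ⟨prStep hc e, ?_, (hst.trans hte).trans ⟨1, happ e⟩⟩
      rw [h4, Function.iterate_succ_apply', perm_inv_apply]
  -- assemble
  obtain ⟨m, hm⟩ := hc.trans p.1.1 p.2.1 p.1.2 p.2.2.1
  obtain ⟨e, he, hpe⟩ := h1 m p hm.symm
  have hstep : e.1.2 = c e.1.1 := by rw [he]
  have h4 := prStep_pos hc hstep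
  rw [he] at h4
  change (prStep hc e).1 = (c p.1.1, p.1.1) at h4
  obtain ⟨k, hk⟩ := hc.trans (c p.1.1) (hc.mem p.2.1) q.1.1 q.2.1
  obtain ⟨t, ht, het⟩ := h3 k (c p.1.1) (hc.mem p.2.1) (prStep hc e)
    (by rw [h4, perm_inv_apply])
  rw [hk] at ht
  obtain ⟨m', hm'⟩ := hc.trans q.1.2 q.2.2.1 q.1.1 q.2.1
  have htq := h2 m' q hm'.symm t ht
  exact ((hpe.trans ⟨1, happ e⟩).trans het).trans htq

end cyclic

/-! ## The block of a vertex -/

section block

variable {α : Type*}

/-- Adjacency of ordered pairs: the same first entry, or exchanged. -/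
def adjP {S : Set α} (p q : Prs S) : Prop :=
  (p.1.1 = q.1.1 ∧ p.1.2 ≠ q.1.2) ∨ q.1 = (p.1.2, p.1.1)

theorem Cyc.ne_self {S : Set α} {c : Equiv.Perm α} (hc : Cyc (fun _ _ => True) S c) {x y : α}
    (hx : x ∈ S) (hy : y ∈ S) (hxy : x ≠ y) : c x ≠ x := by
  intro h
  obtain ⟨k, hk⟩ := hc.trans x hx y hy
  have hall : ∀ k : ℕ, (⇑c)^[k] x = x := by
    intro k
    induction k with
    | zero => rfl
    | succ k ih => rw [Function.iterate_succ_apply', ih, h]
  exact hxy (by rw [← hk, hall])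

theorem prCyc {S : Set α} {c : Equiv.Perm α} (hc : Cyc (fun _ _ => True) S c) :
    Cyc adjP (Set.univ : Set (Prs S)) (prPerm hc) := by
  refine ⟨fun x hx => absurd (Set.mem_univ x) hx, ?_, fun x _ y _ => prPerm_trans hc x y⟩
  intro p _
  change adjP p (prStep hc p)
  by_cases h : p.1.2 = c p.1.1
  · right
    rw [prStep_pos hc h]
  · left
    rw [prStep_neg hc h]
    refine ⟨rfl, ?_⟩
    change p.1.2 ≠ c⁻¹ p.1.2
    intro h2
    rw [Equiv.Perm.eq_inv_iff_eq] at h2
    exact hc.ne_self p.2.2.1 p.2.1 p.2.2.2.symm h2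

end block

variable {P : Type*} [PartialOrder P] [BoundedOrder P] {rk : P → ℕ}

open Classical in
/-- A face covering both `e` and `f`, if there is one. -/
noncomputable def spn (e f : P) : P :=
  if h : ∃ F, e ⋖ F ∧ f ⋖ F then Classical.choose h else e

theorem spn_spec (hT : TwoFaces P rk) {v e f : P} (hv : rk v = 1) (he : v ⋖ e) (hf : v ⋖ f)
    (hef : e ≠ f) : e ⋖ spn e f ∧ f ⋖ spn e f := by
  have h : ∃ F, e ⋖ F ∧ f ⋖ F := (hT v e f hv he hf hef).exists
  unfold spn
  rw [dif_pos h]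
  exact Classical.choose_spec h

theorem spn_eq (hT : TwoFaces P rk) {v e f F : P} (hv : rk v = 1) (he : v ⋖ e) (hf : v ⋖ f)
    (hef : e ≠ f) (h1 : e ⋖ F) (h2 : f ⋖ F) : spn e f = F :=
  (hT v e f hv he hf hef).unique (spn_spec hT hv he hf hef) ⟨h1, h2⟩

/-- The third edge in the diamond. -/
theorem third_eq (hP : IsPolytope P rk) {v e f g F : P} (he : v ⋖ e) (hf : v ⋖ f) (hg : v ⋖ g)
    (hef : e ≠ f) (heg : e ≠ g) (h1 : e ⋖ F) (h2 : f ⋖ F) (h3 : g ⋖ F) : f = g := by
  rcases at_most_two hP ⟨he, h1⟩ ⟨hf, h2⟩ ⟨hg, h3⟩ with h | h | h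
  · exact absurd h hef
  · exact absurd h heg
  · exact h

/-- The chain belonging to a pair of edges at `v`. -/
noncomputable def pairEmb (hP : IsPolytope P rk) (hT : TwoFaces P rk) (v : P) (hv : rk v = 1) :
    Prs {e : P | v ⋖ e} ↪ List P where
  toFun p := [spn p.1.1 p.1.2, p.1.1, v, ⊥]
  inj' := by
    rintro ⟨⟨e, f⟩, he, hf, hef⟩ ⟨⟨e', f'⟩, he', hf', hef'⟩ h
    simp only [List.cons.injEq, and_true] at h
    obtain ⟨h1, h2⟩ := h
    change v ⋖ e at he
    change v ⋖ f at hf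
    change e ≠ f at hef
    change v ⋖ e' at he'
    change v ⋖ f' at hf'
    change e' ≠ f' at hef'
    subst h2
    obtain ⟨a1, a2⟩ := spn_spec hT hv he hf hef
    obtain ⟨b1, b2⟩ := spn_spec hT hv he hf' hef'
    rw [← h1] at b2
    have := third_eq hP he hf hf' hef hef' a1 a2 b2
    subst this
    rfl

/-- The chains from a face of rank 3 through the vertices of `S`. -/
def PartV (S : Set P) : Set (List P) :=
  {l | ∃ F e v : P, v ∈ S ∧ v ⋖ e ∧ e ⋖ F ∧ l = [F, e, v, ⊥]}

theorem PartV_insert (S : Set P) (v : P) : PartV (S ∪ {v}) = PartV S ∪ PartV {v} := by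
  ext l
  constructor
  · rintro ⟨F, e, w, hw | hw, h1, h2, rfl⟩
    · exact Or.inl ⟨F, e, w, hw, h1, h2, rfl⟩
    · exact Or.inr ⟨F, e, w, hw, h1, h2, rfl⟩
  · rintro (⟨F, e, w, hw, h1, h2, rfl⟩ | ⟨F, e, w, hw, h1, h2, rfl⟩)
    · exact ⟨F, e, w, Or.inl hw, h1, h2, rfl⟩
    · exact ⟨F, e, w, Or.inr hw, h1, h2, rfl⟩

theorem pairEmb_image (hP : IsPolytope P rk) (hT : TwoFaces P rk) (v : P) (hv : rk v = 1) :
    pairEmb hP hT v hv '' Set.univ = PartV {v} := by
  ext l
  constructor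
  · rintro ⟨⟨⟨e, f⟩, he, hf, hef⟩, _, rfl⟩
    exact ⟨spn e f, e, v, rfl, he, (spn_spec hT hv he hf hef).1, rfl⟩
  · rintro ⟨F, e, w, hw, h1, h2, rfl⟩
    rw [Set.mem_singleton_iff] at hw
    subst hw
    obtain ⟨n1, c1, c2, _⟩ := oth_spec hP h1 h2
    refine ⟨⟨(e, oth hP w e F), h1, c1, n1.symm⟩, Set.mem_univ _, ?_⟩
    change [spn e (oth hP w e F), e, w, ⊥] = [F, e, w, ⊥]
    rw [spn_eq hT hv h1 c1 n1.symm h2 c2]

/-- The cycle of the block of `v`. -/
theorem block [Finite P] (hP : IsPolytope P rk) (hT : TwoFaces P rk) {v : P} (hv : rk v = 1)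
    (h3 : ∀ e, v ⋖ e → ∀ e', ∃ e'', v ⋖ e'' ∧ e'' ≠ e ∧ e'' ≠ e')
    {f f' : P} (hf : v ⋖ f) (hf' : v ⋖ f') (hff' : f ≠ f') :
    ∃ σ : Equiv.Perm (List P), Cyc Differ (PartV {v}) σ ∧
      (∀ e F F', v ⋖ e → e ≠ f → e ≠ f' → e ⋖ F → f ⋖ F → e ⋖ F' → f' ⋖ F' →
        E σ [F, e, v, ⊥] [F', e, v, ⊥]) ∧
      (∀ g, v ⋖ g → ∃ F F', F ≠ F' ∧ g ⋖ F ∧ g ⋖ F' ∧ E σ [F, g, v, ⊥] [F', g, v, ⊥]) := by
  classical
  obtain ⟨c, hc, hcf⟩ := exists_cyclic (S := {e : P | v ⋖ e}) (Set.toFinite _) hf hf' hff'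
  refine ⟨(prPerm hc).viaEmbedding (pairEmb hP hT v hv), ?_, ?_, ?_⟩
  · rw [← pairEmb_image hP hT v hv]
    refine (prCyc hc).map _ ?_
    rintro ⟨⟨e, g⟩, he, hg, heg⟩ ⟨⟨e', g'⟩, he', hg', heg'⟩ hadj
    change v ⋖ e at he
    change v ⋖ g at hg
    change e ≠ g at heg
    change v ⋖ e' at he'
    change v ⋖ g' at hg'
    change e' ≠ g' at heg'
    change Differ [spn e g, e, v, ⊥] [spn e' g', e', v, ⊥]
    rcases hadj with ⟨h1, h2⟩ | h1
    · change e = e' at h1
      change g ≠ g' at h2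
      subst h1
      refine ⟨[], spn e g, spn e g', [e, v, ⊥], ?_, rfl, rfl⟩
      intro h
      obtain ⟨a1, a2⟩ := spn_spec hT hv he hg heg
      obtain ⟨b1, b2⟩ := spn_spec hT hv he hg' heg'
      rw [← h] at b2
      exact h2 (third_eq hP he hg hg' heg heg' a1 a2 b2)
    · change (e', g') = (g, e) at h1
      obtain ⟨rfl, rfl⟩ := Prod.mk.inj h1
      obtain ⟨a1, a2⟩ := spn_spec hT hv he hg heg
      rw [spn_eq hT hv hg he heg.symm a2 a1]
      exact ⟨[spn g' e'], g', e', [v, ⊥], heg, rfl, rfl⟩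
  · intro e F F' he hef hef' h1 h2 h4 h5
    let p : Prs {e : P | v ⋖ e} := ⟨(e, f'), he, hf', hef'⟩
    let q : Prs {e : P | v ⋖ e} := ⟨(e, f), he, hf, hef⟩
    have hpq : prPerm hc p = q := by
      apply Subtype.ext
      change (prStep hc p).1 = q.1
      have h6 : p.1.2 ≠ c p.1.1 := by
        change f' ≠ c e
        intro h7
        rw [← hcf] at h7
        exact hef (c.injective h7).symm
      rw [prStep_neg hc h6]
      change (e, c⁻¹ f') = (e, f)
      rw [← hcf, perm_inv_apply]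
    have h6 : pairEmb hP hT v hv q = [F, e, v, ⊥] := by
      change [spn e f, e, v, ⊥] = _
      rw [spn_eq hT hv he hf hef h1 h2]
    have h7 : pairEmb hP hT v hv p = [F', e, v, ⊥] := by
      change [spn e f', e, v, ⊥] = _
      rw [spn_eq hT hv he hf' hef' h4 h5]
    rw [← h6, ← h7, E_map]
    exact Or.inr hpq
  · intro g hg
    obtain ⟨g', hg', hne, hne'⟩ := h3 g hg (c g)
    let p : Prs {e : P | v ⋖ e} := ⟨(g, g'), hg, hg', hne.symm⟩
    have hp := prStep_neg hc (p := p) hne'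
    have hq := (prStep hc p).2
    rw [hp] at hq
    obtain ⟨_, hq2, hq3⟩ := hq
    change v ⋖ c⁻¹ g' at hq2
    change g ≠ c⁻¹ g' at hq3
    obtain ⟨a1, a2⟩ := spn_spec hT hv hg hg' hne.symm
    obtain ⟨b1, b2⟩ := spn_spec hT hv hg hq2 hq3
    refine ⟨spn g g', spn g (c⁻¹ g'), ?_, a1, b1, ?_⟩
    · intro h
      rw [← h] at b2
      have h4 := third_eq hP hg hg' hq2 hne.symm hq3 a1 a2 b2
      rw [Equiv.Perm.eq_inv_iff_eq] at h4
      exact hc.ne_self hg' hg hne h4
    · have h6 : pairEmb hP hT v hv (prStep hc p) = [spn g (c⁻¹ g'), g, v, ⊥] := by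
        change [spn (prStep hc p).1.1 (prStep hc p).1.2, (prStep hc p).1.1, v, ⊥] = _
        rw [hp]
      have h7 : pairEmb hP hT v hv p = [spn g g', g, v, ⊥] := rfl
      rw [← h6, ← h7, E_map]
      exact Or.inl rfl

end FlagHam
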