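import Mathlib.GroupTheory.Perm.ViaEmbedding
import Mathlib.Data.Set.Finite.Basic
import Mathlib.Data.Fintype.Card
import Mathlib.Tactic

/-!
# Cyclic permutations of a set along the edges of a graph, and how to merge two of them
-/

namespace FlagHam

variable {α β : Type*}

/-- `σ` permutes `S` in one cycle, all steps being `adj`-steps, and is the identity off `S`. -/
structure Cyc (adj : α → α → Prop) (S : Set α) (σ : Equiv.Perm α) : Prop where
  fix : ∀ x, x ∉ S → σ x = x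
  adj : ∀ x ∈ S, adj x (σ x)
  trans : ∀ x ∈ S, ∀ y ∈ S, ∃ k : ℕ, (⇑σ)^[k] x = y

/-- The unordered edges of a permutation. -/
def E (σ : Equiv.Perm α) (x y : α) : Prop := σ x = y ∨ σ y = x

theorem E.symm {σ : Equiv.Perm α} {x y : α} (h : E σ x y) : E σ y x := Or.symm h

theorem E_inv {σ : Equiv.Perm α} {x y : α} : E σ⁻¹ x y ↔ E σ x y := by
  unfold E
  rw [Equiv.Perm.inv_eq_iff_eq, Equiv.Perm.inv_eq_iff_eq]
  constructor
  · rintro (h | h)
    · exact Or.inr h.symm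
    · exact Or.inl h.symm
  · rintro (h | h)
    · exact Or.inr h.symm
    · exact Or.inl h.symm

variable {adj : α → α → Prop} {S S₁ S₂ : Set α} {σ σ₁ σ₂ : Equiv.Perm α}

theorem Cyc.mem (h : Cyc adj S σ) {x : α} (hx : x ∈ S) : σ x ∈ S := by
  by_contra hn
  have h1 := h.fix _ hn
  have h2 : σ x = x := σ.injective h1
  rw [h2] at hn
  exact hn hx

theorem Cyc.mem_iff (h : Cyc adj S σ) {x : α} : σ x ∈ S ↔ x ∈ S := by
  constructor
  · intro hx
    by_contra hn
    rw [h.fix _ hn] at hx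
    exact hn hx
  · exact h.mem

theorem Cyc.iter_mem (h : Cyc adj S σ) {x : α} (hx : x ∈ S) (k : ℕ) : (⇑σ)^[k] x ∈ S := by
  induction k with
  | zero => exact hx
  | succ k ih =>
    rw [Function.iterate_succ_apply']
    exact h.mem ih

theorem Cyc.inv (h : Cyc adj S σ) (hs : ∀ x y, adj x y → adj y x) : Cyc adj S σ⁻¹ := by
  refine ⟨?_, ?_, ?_⟩
  · intro x hx
    rw [Equiv.Perm.inv_eq_iff_eq, h.fix x hx]
  · intro x hx
    have h1 : σ⁻¹ x ∈ S := by
      rw [← h.mem_iff]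
      simpa using hx
    have h2 := h.adj _ h1
    have h3 : σ (σ⁻¹ x) = x := by simp
    rw [h3] at h2
    exact hs _ _ h2
  · intro x hx y hy
    obtain ⟨k, hk⟩ := h.trans y hy x hx
    refine ⟨k, ?_⟩
    rw [← hk]
    have : Function.LeftInverse (⇑σ⁻¹)^[k] (⇑σ)^[k] :=
      Function.LeftInverse.iterate (fun z => by simp) k
    exact this y

/-- Following: if `τ` agrees with `σ` along the first `k` steps from `x`. -/
theorem follow {f g : α → α} {x : α} : ∀ k : ℕ, (∀ j < k, g (f^[j] x) = f (f^[j] x)) →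
    g^[k] x = f^[k] x := by
  intro k
  induction k with
  | zero => intro _; rfl
  | succ k ih =>
    intro h
    rw [Function.iterate_succ_apply', Function.iterate_succ_apply',
      ih (fun j hj => h j (Nat.lt_succ_of_lt hj))]
    exact h k (Nat.lt_succ_self k)

/-- Reachability by iterates. -/
def Reach (f : α → α) (x y : α) : Prop := ∃ k : ℕ, f^[k] x = y

theorem Reach.refl (f : α → α) (x : α) : Reach f x x := ⟨0, rfl⟩

theorem Reach.trans {f : α → α} {x y z : α} (h : Reach f x y) (h' : Reach f y z) :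
    Reach f x z := by
  obtain ⟨k, rfl⟩ := h
  obtain ⟨l, rfl⟩ := h'
  exact ⟨l + k, by rw [Function.iterate_add_apply]⟩

theorem Reach.step {f : α → α} (x : α) : Reach f x (f x) := ⟨1, rfl⟩

/-- If `f` reaches `y` from `x` and `g` agrees with `f` on `S` off `y`... -/
theorem Reach.of_ne {f g : α → α} {x y : α} (h : Reach f x y)
    (hS : ∀ j : ℕ, f^[j] x ≠ y → g (f^[j] x) = f (f^[j] x)) : Reach g x y := by
  classical
  have hex : ∃ k, f^[k] x = y := h
  refine ⟨Nat.find hex, ?_⟩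
  rw [follow (f := f) (Nat.find hex)]
  · exact Nat.find_spec hex
  · intro j hj
    exact hS j (Nat.find_min hex hj)

/-- Starting just after `d`, every point of the cycle is reached without leaving through `d`. -/
theorem reach_after {f g : α → α} {d y : α} (h : Reach f (f d) y)
    (hS : ∀ j : ℕ, f^[j] (f d) ≠ d → g (f^[j] (f d)) = f (f^[j] (f d))) :
    Reach g (f d) y := by
  classical
  have hex : ∃ k, f^[k] (f d) = y := h
  refine ⟨Nat.find hex, ?_⟩
  rw [follow (f := f) (Nat.find hex)]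
  · exact Nat.find_spec hex
  · intro j hj
    refine hS j ?_
    intro hd
    -- then `f^[j+1] (f d) = f d`, so `y` is reached earlier
    have h1 : f^[Nat.find hex] (f d) = y := Nat.find_spec hex
    have h2 : f^[j + 1] (f d) = f d := by
      rw [Function.iterate_succ_apply', hd]
    have h3 : f^[Nat.find hex - (j + 1)] (f d) = y := by
      have h4 : Nat.find hex = (Nat.find hex - (j + 1)) + (j + 1) := by omega
      rw [h4, Function.iterate_add_apply, h2] at h1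
      exact h1
    have h5 := Nat.find_min' hex h3
    omega

open Equiv in
/-- Oriented merging. -/
theorem Cyc.merge₀ [DecidableEq α] (h1 : Cyc adj S₁ σ₁) (h2 : Cyc adj S₂ σ₂)
    (hd : Disjoint S₁ S₂) {a d : α} (ha : a ∈ S₁) (hdS : d ∈ S₂)
    (hac : adj a (σ₂ d)) (hdb : adj d (σ₁ a)) :
    ∃ τ : Perm α, Cyc adj (S₁ ∪ S₂) τ ∧ (∀ x ∈ S₁, x ≠ a → τ x = σ₁ x) ∧
      (∀ x ∈ S₂, x ≠ d → τ x = σ₂ x) := by
  have hdis : ∀ x, x ∈ S₁ → x ∈ S₂ → False := fun x h h' => Set.disjoint_left.mp hd h h'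
  have had : a ≠ d := fun h => hdis a ha (h ▸ hdS)
  set τ : Perm α := σ₁ * σ₂ * swap a d with hτ
  have t1 : ∀ x ∈ S₁, x ≠ a → τ x = σ₁ x := by
    intro x hx hxa
    have hxd : x ≠ d := fun h => hdis x hx (h ▸ hdS)
    have h3 : σ₂ x = x := h2.fix x (fun h => hdis x hx h)
    simp only [hτ, Perm.mul_apply, swap_apply_of_ne_of_ne hxa hxd, h3]
  have t2 : ∀ x ∈ S₂, x ≠ d → τ x = σ₂ x := by
    intro x hx hxd
    have hxa : x ≠ a := fun h => hdis x (h ▸ ha) hx
    have h3 : σ₁ (σ₂ x) = σ₂ x := h1.fix _ (fun h => hdis _ h (h2.mem hx))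
    simp only [hτ, Perm.mul_apply, swap_apply_of_ne_of_ne hxa hxd, h3]
  have t3 : τ a = σ₂ d := by
    have h3 : σ₁ (σ₂ d) = σ₂ d := h1.fix _ (fun h => hdis _ h (h2.mem hdS))
    simp only [hτ, Perm.mul_apply, swap_apply_left, h3]
  have t4 : τ d = σ₁ a := by
    have h3 : σ₂ a = a := h2.fix a (fun h => hdis a ha h)
    simp only [hτ, Perm.mul_apply, swap_apply_right, h3]
  refine ⟨τ, ⟨?_, ?_, ?_⟩, t1, t2⟩
  · intro x hx
    have hx1 : x ∉ S₁ := fun h => hx (Or.inl h)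
    have hx2 : x ∉ S₂ := fun h => hx (Or.inr h)
    have hxa : x ≠ a := fun h => hx1 (h ▸ ha)
    have hxd : x ≠ d := fun h => hx2 (h ▸ hdS)
    simp only [hτ, Perm.mul_apply, swap_apply_of_ne_of_ne hxa hxd, h2.fix x hx2, h1.fix x hx1]
  · rintro x (hx | hx)
    · by_cases hxa : x = a
      · subst hxa; rw [t3]; exact hac
      · rw [t1 x hx hxa]; exact h1.adj x hx
    · by_cases hxd : x = d
      · subst hxd; rw [t4]; exact hdb
      · rw [t2 x hx hxd]; exact h2.adj x hx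
  · -- transitivity
    have r1 : ∀ x ∈ S₁, Reach τ x a := by
      intro x hx
      refine Reach.of_ne (f := σ₁) (h1.trans x hx a ha) ?_
      intro j hj
      exact t1 _ (h1.iter_mem hx j) hj
    have r2 : ∀ x ∈ S₂, Reach τ x d := by
      intro x hx
      refine Reach.of_ne (f := σ₂) (h2.trans x hx d hdS) ?_
      intro j hj
      exact t2 _ (h2.iter_mem hx j) hj
    have r3 : ∀ y ∈ S₂, Reach τ a y := by
      intro y hy
      have h3 : Reach τ (σ₂ d) y := by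
        refine reach_after (f := σ₂) (h2.trans _ (h2.mem hdS) y hy) ?_
        intro j hj
        exact t2 _ (h2.iter_mem (h2.mem hdS) j) hj
      exact Reach.trans (⟨1, t3⟩ : Reach τ a (σ₂ d)) h3
    have r4 : ∀ y ∈ S₁, Reach τ d y := by
      intro y hy
      have h3 : Reach τ (σ₁ a) y := by
        refine reach_after (f := σ₁) (h1.trans _ (h1.mem ha) y hy) ?_
        intro j hj
        exact t1 _ (h1.iter_mem (h1.mem ha) j) hj
      exact Reach.trans (⟨1, t4⟩ : Reach τ d (σ₁ a)) h3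
    rintro x (hx | hx) y (hy | hy)
    · exact (r1 x hx).trans ((r3 d hdS).trans (r4 y hy))
    · exact (r1 x hx).trans (r3 y hy)
    · exact (r2 x hx).trans (r4 y hy)
    · exact (r2 x hx).trans ((r4 a ha).trans (r3 y hy))

/-- Merging at a pair of parallel edges `a b` and `c d`. -/
theorem Cyc.merge (h1 : Cyc adj S₁ σ₁) (h2 : Cyc adj S₂ σ₂)
    (hs : ∀ x y, adj x y → adj y x)
    (hd : Disjoint S₁ S₂) {a b c d : α} (ha : a ∈ S₁) (hb : b ∈ S₁) (hc : c ∈ S₂) (hdS : d ∈ S₂)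
    (hab : E σ₁ a b) (hcd : E σ₂ c d) (hac : adj a c) (hbd : adj b d) :
    ∃ τ : Equiv.Perm α, Cyc adj (S₁ ∪ S₂) τ ∧
      (∀ x ∈ S₁, ∀ y ∈ S₁, E σ₁ x y → ¬ (x = a ∧ y = b) → ¬ (x = b ∧ y = a) → E τ x y) ∧
      (∀ x ∈ S₂, ∀ y ∈ S₂, E σ₂ x y → ¬ (x = c ∧ y = d) → ¬ (x = d ∧ y = c) → E τ x y) := by
  classical
  -- first: the oriented case
  have key : ∀ (ρ₁ ρ₂ : Equiv.Perm α) (a b c d : α), Cyc adj S₁ ρ₁ → Cyc adj S₂ ρ₂ →
      a ∈ S₁ → d ∈ S₂ → ρ₁ a = b → ρ₂ d = c → adj a c → adj b d →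
      ∃ τ : Equiv.Perm α, Cyc adj (S₁ ∪ S₂) τ ∧
      (∀ x ∈ S₁, ∀ y ∈ S₁, E ρ₁ x y → ¬ (x = a ∧ y = b) → ¬ (x = b ∧ y = a) → E τ x y) ∧
      (∀ x ∈ S₂, ∀ y ∈ S₂, E ρ₂ x y → ¬ (x = c ∧ y = d) → ¬ (x = d ∧ y = c) → E τ x y) := by
    intro ρ₁ ρ₂ a b c d h1 h2 ha hdS hab hdc hac hbd
    obtain ⟨τ, hτ, t1, t2⟩ := Cyc.merge₀ h1 h2 hd ha hdS (by rw [hdc]; exact hac)
      (by rw [hab]; exact hs _ _ hbd)
    refine ⟨τ, hτ, ?_, ?_⟩
    · intro x hx y hy hxy n1 n2
      rcases hxy with h | h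
      · left
        rw [t1 x hx, h]
        rintro rfl
        exact n1 ⟨rfl, by rw [← h, hab]⟩
      · right
        rw [t1 y hy, h]
        rintro rfl
        exact n2 ⟨by rw [← h, hab], rfl⟩
    · intro x hx y hy hxy n1 n2
      rcases hxy with h | h
      · left
        rw [t2 x hx, h]
        rintro rfl
        exact n2 ⟨rfl, by rw [← h, hdc]⟩
      · right
        rw [t2 y hy, h]
        rintro rfl
        exact n1 ⟨by rw [← h, hdc], rfl⟩
  -- orient both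
  rcases hab with hab | hab
  · rcases hcd with hcd | hcd
    · -- `σ₂ c = d`: reverse `σ₂`
      have hdc : σ₂⁻¹ d = c := by rw [Equiv.Perm.inv_eq_iff_eq, hcd]
      obtain ⟨τ, hτ, t1, t2⟩ := key σ₁ σ₂⁻¹ a b c d h1 (h2.inv hs) ha hdS hab hdc hac hbd
      exact ⟨τ, hτ, t1, fun x hx y hy hxy => t2 x hx y hy (E_inv.mpr hxy)⟩
    · exact key σ₁ σ₂ a b c d h1 h2 ha hdS hab hcd hac hbd
  · rcases hcd with hcd | hcd
    · -- `σ₁ b = a`, `σ₂ c = d`: swap the roles
      obtain ⟨τ, hτ, t1, t2⟩ := key σ₁ σ₂ b a d c h1 h2 hb hc hab hcd hbd hac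
      exact ⟨τ, hτ, fun x hx y hy hxy n1 n2 => t1 x hx y hy hxy n2 n1,
        fun x hx y hy hxy n1 n2 => t2 x hx y hy hxy n2 n1⟩
    · have hdc : σ₂⁻¹ c = d := by rw [Equiv.Perm.inv_eq_iff_eq, hcd]
      obtain ⟨τ, hτ, t1, t2⟩ := key σ₁ σ₂⁻¹ b a d c h1 (h2.inv hs) hb hc hab hdc hbd hac
      exact ⟨τ, hτ, fun x hx y hy hxy n1 n2 => t1 x hx y hy hxy n2 n1,
        fun x hx y hy hxy n1 n2 => t2 x hx y hy (E_inv.mpr hxy) n2 n1⟩

/-- Transport along an embedding. -/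
theorem Cyc.map {adj' : β → β → Prop} (h : Cyc adj S σ) (ι : α ↪ β)
    (hadj : ∀ x y, adj x y → adj' (ι x) (ι y)) : Cyc adj' (ι '' S) (σ.viaEmbedding ι) := by
  refine ⟨?_, ?_, ?_⟩
  · intro x hx
    by_cases hr : x ∈ Set.range ι
    · obtain ⟨y, rfl⟩ := hr
      rw [Equiv.Perm.viaEmbedding_apply]
      have : y ∉ S := fun hy => hx ⟨y, hy, rfl⟩
      rw [h.fix y this]
    · exact Equiv.Perm.viaEmbedding_apply_of_notMem _ _ _ hr
  · rintro _ ⟨y, hy, rfl⟩
    rw [Equiv.Perm.viaEmbedding_apply]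
    exact hadj _ _ (h.adj y hy)
  · rintro _ ⟨y, hy, rfl⟩ _ ⟨z, hz, rfl⟩
    obtain ⟨k, hk⟩ := h.trans y hy z hz
    refine ⟨k, ?_⟩
    rw [← hk]
    clear hk
    induction k with
    | zero => rfl
    | succ k ih =>
      rw [Function.iterate_succ_apply', ih, Equiv.Perm.viaEmbedding_apply,
        Function.iterate_succ_apply']

theorem E_map (ι : α ↪ β) (x y : α) : E (σ.viaEmbedding ι) (ι x) (ι y) ↔ E σ x y := by
  unfold E
  rw [Equiv.Perm.viaEmbedding_apply, Equiv.Perm.viaEmbedding_apply, ι.apply_eq_iff_eq,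
    ι.apply_eq_iff_eq]

end FlagHam
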