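import Mathlib.Order.Cover
import Mathlib.Order.BoundedOrder.Basic
import Mathlib.Combinatorics.SimpleGraph.Hamiltonian

/-!
# Abstract polytopes and their chain graphs: definitions
-/

namespace FlagHam

/-- Two faces `A`, `B` covered by `F` are neighbours if some face `R` is covered by both. -/
def Share {P : Type*} [PartialOrder P] (F A B : P) : Prop :=
  A ⋖ F ∧ B ⋖ F ∧ ∃ R, R ⋖ A ∧ R ⋖ B

/-- `P` with the rank function `rk` is (the face poset of) an abstract polytope: the least face
has rank `0` and covering faces have consecutive ranks (rank = dimension + 1); if `R` is covered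
by a face which is covered by `F`, then exactly two faces are covered by `F` and cover `R`;
and in every face `F` of rank at least 3 any two facets of `F` are joined by a sequence of facets
of `F`, any two consecutive ones having a common facet. -/
structure IsPolytope (P : Type*) [PartialOrder P] [BoundedOrder P] (rk : P → ℕ) : Prop where
  /-- The least face has rank 0. -/
  rk_bot : rk ⊥ = 0
  /-- Covering faces have consecutive ranks. -/
  rk_cov : ∀ a b : P, a ⋖ b → rk b = rk a + 1
  /-- The diamond condition. -/
  diamond : ∀ R F : P, (∃ G, R ⋖ G ∧ G ⋖ F) →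
    ∃ G H, G ≠ H ∧ ∀ X, (R ⋖ X ∧ X ⋖ F) ↔ (X = G ∨ X = H)
  /-- The facets of a face of rank at least 3 are connected. -/
  conn : ∀ F : P, 3 ≤ rk F → ∀ G H : P, G ⋖ F → H ⋖ F → Relation.ReflTransGen (Share F) G H

/-- Any two different edges (faces of rank 2) at a vertex (face of rank 1) are facets of exactly
one common 2-face. -/
def TwoFaces (P : Type*) [PartialOrder P] [BoundedOrder P] (rk : P → ℕ) : Prop :=
  ∀ v e f : P, rk v = 1 → v ⋖ e → v ⋖ f → e ≠ f → ∃! F, e ⋖ F ∧ f ⋖ F

/-- `Sat F l`: the list `F :: l` is a saturated chain from `F` down to `⊥`. -/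
def Sat {P : Type*} [PartialOrder P] [BoundedOrder P] : P → List P → Prop
  | F, [] => F = ⊥
  | F, G :: l => G ⋖ F ∧ Sat G l

/-- Two lists differ in exactly one place. -/
def Differ {P : Type*} (l m : List P) : Prop :=
  ∃ (a : List P) (x y : P) (b : List P), x ≠ y ∧ l = a ++ x :: b ∧ m = a ++ y :: b

/-- The saturated chains `F > ... > ⊥` (written as lists) from the faces `F` of rank `n` down
to `⊥`. -/
def Chains (P : Type*) [PartialOrder P] [BoundedOrder P] (rk : P → ℕ) (n : ℕ) : Type _ :=
  {l : List P // ∃ (F : P) (l' : List P), rk F = n ∧ Sat F l' ∧ l = F :: l'}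

/-- The chain graph: two saturated chains are adjacent if they differ in exactly one face.
For `n = rk ⊤ - 1` it is the flag graph. -/
def chainGraph (P : Type*) [PartialOrder P] [BoundedOrder P] (rk : P → ℕ) (n : ℕ) :
    SimpleGraph (Chains P rk n) where
  Adj l m := Differ l.1 m.1
  symm := ⟨fun _ _ ⟨a, x, y, b, h, h1, h2⟩ => ⟨a, y, x, b, h.symm, h2, h1⟩⟩
  loopless := ⟨fun _ ⟨_, _, _, _, h, h1, h2⟩ => by
    rw [h1] at h2
    exact h (List.cons.inj (List.append_cancel_left h2)).1⟩

end FlagHam
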