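import Pool.Agent.FlagHam.Basic

/-!
# Growing a cycle over a connected family of faces
-/

namespace FlagHam

variable {P : Type*} [PartialOrder P] [BoundedOrder P] {rk : P → ℕ}

/-- The part of the chains that start with a member of `S`. -/
def Part (S : Set P) : Set (List P) := {l | ∃ (G : P) (x : List P), G ∈ S ∧ x ∈ Fl G ∧ l = G :: x}

theorem Part_insert (S : Set P) (G : P) :
    Part (S ∪ {G}) = Part S ∪ (consEmb G) '' Fl G := by
  ext l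
  constructor
  · rintro ⟨H, x, hH | hH, hx, rfl⟩
    · exact Or.inl ⟨H, x, hH, hx, rfl⟩
    · rw [Set.mem_singleton_iff] at hH
      subst hH
      exact Or.inr ⟨x, hx, rfl⟩
  · rintro (⟨H, x, hH, hx, rfl⟩ | ⟨x, hx, rfl⟩)
    · exact ⟨H, x, Or.inl hH, hx, rfl⟩
    · exact ⟨G, x, Or.inr rfl, hx, rfl⟩

theorem Part_singleton (G : P) : Part ({G} : Set P) = (consEmb G) '' Fl G := by
  ext l
  constructor
  · rintro ⟨H, x, hH, hx, rfl⟩
    rw [Set.mem_singleton_iff] at hH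
    subst hH
    exact ⟨x, hx, rfl⟩
  · rintro ⟨x, hx, rfl⟩
    exact ⟨G, x, rfl, hx, rfl⟩

/-- `τ` contains the copies in `G` of all edges in `U R` -/
def Full (U : P → List P → List P → Prop) (τ : Equiv.Perm (List P)) (G R : P) : Prop :=
  ∀ x y, U R x y → E τ (G :: R :: x) (G :: R :: y)

/-- The state of the construction. -/
structure State (sig : P → Equiv.Perm (List P)) (U : P → List P → List P → Prop) (S : Set P)
    (τ : Equiv.Perm (List P)) : Prop where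
  cyc : Cyc Differ (Part S) τ
  pres : ∀ G ∈ S, ∀ x ∈ Fl G, ∀ y ∈ Fl G, E (sig G) x y → Cross x y → E τ (G :: x) (G :: y)
  des : ∀ R G₀ : P, G₀ ∈ S → R ⋖ G₀ → ∃ G ∈ S, R ⋖ G ∧ (Full U τ G R ∨
    ((∃ G' ∈ S, G' ≠ G ∧ R ⋖ G') ∧ ∃ u v, ∀ x y, U R x y → ¬ (x = u ∧ y = v) →
      ¬ (x = v ∧ y = u) → E τ (G :: R :: x) (G :: R :: y)))

/-- One step of the construction. -/
theorem State.step {sig : P → Equiv.Perm (List P)} {U : P → List P → List P → Prop}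
    {𝒢 : Set P} (hsig : ∀ G ∈ 𝒢, Cyc Differ (Fl G) (sig G))
    (hUmem : ∀ R x y, U R x y → x ∈ Fl R ∧ y ∈ Fl R)
    (hU : ∀ G ∈ 𝒢, ∀ R, R ⋖ G → ∀ x y, U R x y → E (sig G) (R :: x) (R :: y))
    (hUne : ∀ G ∈ 𝒢, ∀ R, R ⋖ G → ∃ x y, U R x y)
    (hU2 : ∀ R, (∃ A ∈ 𝒢, ∃ B ∈ 𝒢, ∃ C ∈ 𝒢, R ⋖ A ∧ R ⋖ B ∧ R ⋖ C ∧ A ≠ B ∧ A ≠ C ∧ B ≠ C) →
      ∃ x y x' y', U R x y ∧ U R x' y' ∧ ¬ (x = x' ∧ y = y') ∧ ¬ (x = y' ∧ y = x'))
    {S : Set P} {τ : Equiv.Perm (List P)} (hτ : State sig U S τ) (hS : S ⊆ 𝒢)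
    {G₀ G' R : P} (hG₀ : G₀ ∈ S) (hG' : G' ∈ 𝒢) (hG'S : G' ∉ S) (h1 : R ⋖ G₀) (h2 : R ⋖ G') :
    ∃ τ' : Equiv.Perm (List P), State sig U (S ∪ {G'}) τ' := by
  classical
  obtain ⟨G, hG, hRG, hdes⟩ := hτ.des R G₀ hG₀ h1
  have hne : G ≠ G' := fun h => hG'S (h ▸ hG)
  -- choose an edge
  obtain ⟨x, y, hxy, hE⟩ : ∃ x y, U R x y ∧ E τ (G :: R :: x) (G :: R :: y) := by
    rcases hdes with hf | ⟨⟨G'', hG'', hne'', hRG''⟩, u, v, huv⟩
    · obtain ⟨x, y, hxy⟩ := hUne G (hS hG) R hRG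
      exact ⟨x, y, hxy, hf x y hxy⟩
    · obtain ⟨x, y, x', y', hxy, hxy', n1, n2⟩ := hU2 R ⟨G, hS hG, G'', hS hG'', G', hG', hRG,
        hRG'', h2, hne''.symm, hne, fun h => hG'S (h ▸ hG'')⟩
      by_cases hc : (x = u ∧ y = v) ∨ (x = v ∧ y = u)
      · refine ⟨x', y', hxy', huv x' y' hxy' ?_ ?_⟩
        · rintro ⟨rfl, rfl⟩
          rcases hc with ⟨rfl, rfl⟩ | ⟨rfl, rfl⟩
          · exact n1 ⟨rfl, rfl⟩
          · exact n2 ⟨rfl, rfl⟩
        · rintro ⟨rfl, rfl⟩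
          rcases hc with ⟨rfl, rfl⟩ | ⟨rfl, rfl⟩
          · exact n2 ⟨rfl, rfl⟩
          · exact n1 ⟨rfl, rfl⟩
      · push Not at hc
        exact ⟨x, y, hxy, huv x y hxy (fun h => hc.1 h.1 h.2) (fun h => hc.2 h.1 h.2)⟩
  obtain ⟨hxR, hyR⟩ := hUmem R x y hxy
  have hc2 : Cyc Differ ((consEmb G') '' Fl G') ((sig G').viaEmbedding (consEmb G')) :=
    (hsig G' hG').map (consEmb G') (fun _ _ h => h.cons G')
  have hdisj : Disjoint (Part S) ((consEmb G') '' Fl G') := by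
    rw [Set.disjoint_left]
    rintro l ⟨H, z, hH, _, rfl⟩ ⟨w, _, hw⟩
    have : G' = H := (List.cons.inj hw).1
    exact hG'S (this ▸ hH)
  have hEG' : E ((sig G').viaEmbedding (consEmb G')) (G' :: R :: x) (G' :: R :: y) := by
    have := (E_map (σ := sig G') (consEmb G') (R :: x) (R :: y)).mpr (hU G' hG' R h2 x y hxy)
    exact this
  obtain ⟨τ', hcyc, t1, t2⟩ := Cyc.merge hτ.cyc hc2 (fun _ _ h => h.symm) hdisj
    (a := G :: R :: x) (b := G :: R :: y) (c := G' :: R :: x) (d := G' :: R :: y)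
    ⟨G, R :: x, hG, ⟨hRG, hxR⟩, rfl⟩ ⟨G, R :: y, hG, ⟨hRG, hyR⟩, rfl⟩
    ⟨R :: x, ⟨h2, hxR⟩, rfl⟩ ⟨R :: y, ⟨h2, hyR⟩, rfl⟩ hE hEG'
    (differ_head _ hne) (differ_head _ hne)
  -- preservation of edges in the old part
  have old : ∀ H ∈ S, ∀ z ∈ Fl H, ∀ w ∈ Fl H, E τ (H :: z) (H :: w) →
      ¬ (H = G ∧ z = R :: x ∧ w = R :: y) → ¬ (H = G ∧ z = R :: y ∧ w = R :: x) →
      E τ' (H :: z) (H :: w) := by
    intro H hH z hz w hw hzw n1 n2
    refine t1 _ ⟨H, z, hH, hz, rfl⟩ _ ⟨H, w, hH, hw, rfl⟩ hzw ?_ ?_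
    · rintro ⟨e1, e2⟩
      exact n1 ⟨(List.cons.inj e1).1, (List.cons.inj e1).2, (List.cons.inj e2).2⟩
    · rintro ⟨e1, e2⟩
      exact n2 ⟨(List.cons.inj e1).1, (List.cons.inj e1).2, (List.cons.inj e2).2⟩
  -- preservation of edges in the new part
  have new : ∀ z ∈ Fl G', ∀ w ∈ Fl G', E (sig G') z w →
      ¬ (z = R :: x ∧ w = R :: y) → ¬ (z = R :: y ∧ w = R :: x) →
      E τ' (G' :: z) (G' :: w) := by
    intro z hz w hw hzw n1 n2
    refine t2 _ ⟨z, hz, rfl⟩ _ ⟨w, hw, rfl⟩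
      ((E_map (σ := sig G') (consEmb G') z w).mpr hzw) ?_ ?_
    · rintro ⟨e1, e2⟩
      exact n1 ⟨(List.cons.inj e1).2, (List.cons.inj e2).2⟩
    · rintro ⟨e1, e2⟩
      exact n2 ⟨(List.cons.inj e1).2, (List.cons.inj e2).2⟩
  refine ⟨τ', ⟨?_, ?_, ?_⟩⟩
  · rw [Part_insert]; exact hcyc
  · rintro H (hH | hH) z hz w hw hzw hcr
    · refine old H hH z hz w hw (hτ.pres H hH z hz w hw hzw hcr) ?_ ?_
      · rintro ⟨_, e1, e2⟩
        exact hcr ⟨R, x, y, e1, e2⟩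
      · rintro ⟨_, e1, e2⟩
        exact hcr ⟨R, y, x, e1, e2⟩
    · rw [Set.mem_singleton_iff] at hH
      subst hH
      refine new z hz w hw hzw ?_ ?_
      · rintro ⟨e1, e2⟩
        exact hcr ⟨R, x, y, e1, e2⟩
      · rintro ⟨e1, e2⟩
        exact hcr ⟨R, y, x, e1, e2⟩
  · intro R' H₀ hH₀ hR'H₀
    by_cases hRR : R' = R
    · -- the new face is the designated one
      subst hRR
      refine ⟨G', Or.inr rfl, h2, Or.inr ⟨⟨G, Or.inl hG, hne, hRG⟩, x, y, ?_⟩⟩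
      intro x' y' hxy' n1 n2
      obtain ⟨hx', hy'⟩ := hUmem R' x' y' hxy'
      refine new (R' :: x') ⟨h2, hx'⟩ (R' :: y') ⟨h2, hy'⟩ (hU G' hG' R' h2 x' y' hxy') ?_ ?_
      · rintro ⟨e1, e2⟩
        exact n1 ⟨(List.cons.inj e1).2, (List.cons.inj e2).2⟩
      · rintro ⟨e1, e2⟩
        exact n2 ⟨(List.cons.inj e1).2, (List.cons.inj e2).2⟩
    · by_cases hcov : ∃ G₁ ∈ S, R' ⋖ G₁
      · obtain ⟨G₁, hG₁, hR'G₁⟩ := hcov
        obtain ⟨H, hH, hR'H, hd⟩ := hτ.des R' G₁ hG₁ hR'G₁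
        have keep : ∀ x' y', U R' x' y' → E τ (H :: R' :: x') (H :: R' :: y') →
            E τ' (H :: R' :: x') (H :: R' :: y') := by
          intro x' y' hxy' hE'
          obtain ⟨hx', hy'⟩ := hUmem R' x' y' hxy'
          refine old H hH (R' :: x') ⟨hR'H, hx'⟩ (R' :: y') ⟨hR'H, hy'⟩ hE' ?_ ?_
          · rintro ⟨_, e1, _⟩
            exact hRR (List.cons.inj e1).1
          · rintro ⟨_, e1, _⟩
            exact hRR (List.cons.inj e1).1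
        refine ⟨H, Or.inl hH, hR'H, ?_⟩
        rcases hd with hf | ⟨⟨G'', hG'', hne'', hR'G''⟩, u, v, huv⟩
        · left
          intro x' y' hxy'
          exact keep x' y' hxy' (hf x' y' hxy')
        · right
          refine ⟨⟨G'', Or.inl hG'', hne'', hR'G''⟩, u, v, ?_⟩
          intro x' y' hxy' n1 n2
          exact keep x' y' hxy' (huv x' y' hxy' n1 n2)
      · -- `R'` is only covered by `G'`
        have hH₀' : H₀ = G' := by
          rcases hH₀ with h | h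
          · exact absurd ⟨H₀, h, hR'H₀⟩ hcov
          · exact h
        subst hH₀'
        refine ⟨H₀, Or.inr rfl, hR'H₀, Or.inl ?_⟩
        intro x' y' hxy'
        obtain ⟨hx', hy'⟩ := hUmem R' x' y' hxy'
        refine new (R' :: x') ⟨hR'H₀, hx'⟩ (R' :: y') ⟨hR'H₀, hy'⟩
          (hU H₀ hG' R' hR'H₀ x' y' hxy') ?_ ?_
        · rintro ⟨e1, _⟩
          exact hRR (List.cons.inj e1).1
        · rintro ⟨e1, _⟩
          exact hRR (List.cons.inj e1).1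

/-- The start. -/
theorem State.start {sig : P → Equiv.Perm (List P)} {U : P → List P → List P → Prop}
    {G : P} (hsig : Cyc Differ (Fl G) (sig G))
    (hU : ∀ R, R ⋖ G → ∀ x y, U R x y → E (sig G) (R :: x) (R :: y)) :
    State sig U {G} ((sig G).viaEmbedding (consEmb G)) := by
  refine ⟨?_, ?_, ?_⟩
  · rw [Part_singleton]
    exact hsig.map (consEmb G) (fun _ _ h => h.cons G)
  · intro H hH z _ w _ hzw _
    rw [Set.mem_singleton_iff] at hH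
    subst hH
    exact (E_map (σ := sig H) (consEmb H) z w).mpr hzw
  · intro R G₀ hG₀ hR
    rw [Set.mem_singleton_iff] at hG₀
    subst hG₀
    refine ⟨G₀, rfl, hR, Or.inl ?_⟩
    intro x y hxy
    exact (E_map (σ := sig G₀) (consEmb G₀) (R :: x) (R :: y)).mpr (hU R hR x y hxy)

/-- The whole family. -/
theorem grow {sig : P → Equiv.Perm (List P)} {U : P → List P → List P → Prop}
    {𝒢 : Set P} (hfin : 𝒢.Finite) (hne : 𝒢.Nonempty)
    (hsig : ∀ G ∈ 𝒢, Cyc Differ (Fl G) (sig G))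
    (hUmem : ∀ R x y, U R x y → x ∈ Fl R ∧ y ∈ Fl R)
    (hU : ∀ G ∈ 𝒢, ∀ R, R ⋖ G → ∀ x y, U R x y → E (sig G) (R :: x) (R :: y))
    (hUne : ∀ G ∈ 𝒢, ∀ R, R ⋖ G → ∃ x y, U R x y)
    (hU2 : ∀ R, (∃ A ∈ 𝒢, ∃ B ∈ 𝒢, ∃ C ∈ 𝒢, R ⋖ A ∧ R ⋖ B ∧ R ⋖ C ∧ A ≠ B ∧ A ≠ C ∧ B ≠ C) →
      ∃ x y x' y', U R x y ∧ U R x' y' ∧ ¬ (x = x' ∧ y = y') ∧ ¬ (x = y' ∧ y = x'))
    (hconn : ∀ G ∈ 𝒢, ∀ H ∈ 𝒢,
      Relation.ReflTransGen (fun A B => A ∈ 𝒢 ∧ B ∈ 𝒢 ∧ ∃ R, R ⋖ A ∧ R ⋖ B) G H) :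
    ∃ τ : Equiv.Perm (List P), Cyc Differ (Part 𝒢) τ ∧
      ∀ G ∈ 𝒢, ∀ x ∈ Fl G, ∀ y ∈ Fl G, E (sig G) x y → Cross x y → E τ (G :: x) (G :: y) := by
  classical
  obtain ⟨G₀, hG₀⟩ := hne
  -- subsets of every size
  have key : ∀ k : ℕ, 1 ≤ k → k ≤ 𝒢.ncard →
      ∃ S : Set P, S ⊆ 𝒢 ∧ G₀ ∈ S ∧ S.ncard = k ∧ ∃ τ, State sig U S τ := by
    intro k hk
    induction k, hk using Nat.le_induction with
    | base =>
      intro _
      exact ⟨{G₀}, Set.singleton_subset_iff.mpr hG₀, rfl, Set.ncard_singleton G₀, _,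
        State.start (hsig G₀ hG₀) (hU G₀ hG₀)⟩
    | succ k hk ih =>
      intro hk1
      obtain ⟨S, hS, hGS, hcard, τ, hτ⟩ := ih (by omega)
      -- there is a face outside
      have hout : ∃ H ∈ 𝒢, H ∉ S := by
        by_contra hcon
        push Not at hcon
        have : S = 𝒢 := Set.Subset.antisymm hS hcon
        rw [this] at hcard
        omega
      obtain ⟨H, hH, hHS⟩ := hout
      -- a crossing step
      have hcross : ∃ A B, A ∈ S ∧ B ∈ 𝒢 ∧ B ∉ S ∧ ∃ R, R ⋖ A ∧ R ⋖ B := by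
        have hp := hconn G₀ hG₀ H hH
        clear hH
        induction hp with
        | refl => exact absurd hGS hHS
        | tail hab hbc ih2 =>
          rename_i b c
          by_cases hb : b ∈ S
          · exact ⟨b, c, hb, hbc.2.1, hHS, hbc.2.2⟩
          · exact ih2 hb
      obtain ⟨A, B, hA, hB, hBS, R, hRA, hRB⟩ := hcross
      obtain ⟨τ', hτ'⟩ := State.step hsig hUmem hU hUne hU2 hτ hS hA hB hBS hRA hRB
      refine ⟨S ∪ {B}, ?_, Or.inl hGS, ?_, τ', hτ'⟩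
      · rintro z (hz | hz)
        · exact hS hz
        · rw [Set.mem_singleton_iff] at hz
          exact hz ▸ hB
      · rw [Set.union_singleton, Set.ncard_insert_of_notMem hBS (hfin.subset hS), hcard]
  have hpos : 1 ≤ 𝒢.ncard := by
    rw [Nat.one_le_iff_ne_zero]
    intro h0
    rw [Set.ncard_eq_zero hfin] at h0
    rw [h0] at hG₀
    exact hG₀
  obtain ⟨S, hS, _, hcard, τ, hτ⟩ := key 𝒢.ncard hpos le_rfl
  have hSG : S = 𝒢 := Set.eq_of_subset_of_ncard_le hS hcard.ge hfin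
  subst hSG
  exact ⟨τ, hτ.cyc, hτ.pres⟩

end FlagHam
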