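import Pool.Agent.FlagHam.Poly
import Pool.Agent.FlagHam.Ham

/-!
# The chain graphs of an abstract polytope have Hamilton cycles
-/

namespace FlagHam

variable {P : Type*} [PartialOrder P] [BoundedOrder P] {rk : P → ℕ}

theorem rk_lt [Finite P] (hP : IsPolytope P rk) {A B : P} (h : A < B) : rk A < rk B := by
  induction B using WellFoundedLT.induction with
  | ind B ih =>
    obtain ⟨X, hAX, hX⟩ := exists_le_covBy_of_lt h
    have h1 := hP.rk_cov X B hX
    rcases eq_or_lt_of_le hAX with rfl | h2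
    · omega
    · have := ih X hX.lt h2
      omega

theorem exists_of_rank [Finite P] (hP : IsPolytope P rk) {n : ℕ} {R : P} (h : n ≤ rk R) :
    ∃ K, K ≤ R ∧ rk K = n := by
  induction R using WellFoundedLT.induction with
  | ind R ih =>
    by_cases hn : rk R = n
    · exact ⟨R, le_rfl, hn⟩
    · obtain ⟨X, hX⟩ := exists_facet (ne_bot_of_rk hP (show 0 < rk R by omega))
      have h1 := hP.rk_cov X R hX
      obtain ⟨K, hK, hK'⟩ := ih X hX.lt (by omega)
      exact ⟨K, hK.trans hX.le, hK'⟩

/-- The relation between faces of rank `n` having a common facet. -/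
def Rel (rk : P → ℕ) (n : ℕ) (A B : P) : Prop :=
  rk A = n ∧ rk B = n ∧ ∃ R, R ⋖ A ∧ R ⋖ B

theorem rank_conn [Finite P] (hP : IsPolytope P rk) {n : ℕ} (hn : 2 ≤ n) {F : P}
    (hF : n < rk F) : ∀ G H : P, G ≤ F → H ≤ F → rk G = n → rk H = n →
      Relation.ReflTransGen (Rel rk n) G H := by
  induction F using WellFoundedLT.induction with
  | ind F ih =>
    intro G H hG hH hGn hHn
    have hGF : G < F := lt_of_le_of_ne hG (by rintro rfl; omega)
    have hHF : H < F := lt_of_le_of_ne hH (by rintro rfl; omega)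
    obtain ⟨X, hGX, hX⟩ := exists_le_covBy_of_lt hGF
    obtain ⟨Y, hHY, hY⟩ := exists_le_covBy_of_lt hHF
    have hXF := hP.rk_cov X F hX
    have hYF := hP.rk_cov Y F hY
    have hpath := hP.conn F (by omega) X Y hX hY
    by_cases hn1 : rk F = n + 1
    · -- `G = X`, `H = Y`
      have e1 : G = X := by
        by_contra hne
        have := rk_lt hP (lt_of_le_of_ne hGX hne)
        omega
      have e2 : H = Y := by
        by_contra hne
        have := rk_lt hP (lt_of_le_of_ne hHY hne)
        omega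
      subst e1
      subst e2
      refine Relation.ReflTransGen.mono ?_ _ _ hpath
      rintro A B ⟨hA, hB, hR⟩
      have hA' := hP.rk_cov A F hA
      have hB' := hP.rk_cov B F hB
      exact ⟨by omega, by omega, hR⟩
    · clear hYF hHF
      induction hpath generalizing H with
      | refl => exact ih X hX.lt (by omega) G H hGX hHY hGn hHn
      | tail hab hbc ih2 =>
        rename_i Z W
        obtain ⟨hZ, hW, R, hRZ, hRW⟩ := hbc
        have h1 := hP.rk_cov Z F hZ
        have h2 := hP.rk_cov R Z hRZ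
        have h3 := hP.rk_cov W F hW
        obtain ⟨K, hKR, hK⟩ := exists_of_rank hP (show n ≤ rk R by omega)
        have p1 := ih2 K ((hKR.trans hRZ.le).trans hZ.le) hK (hKR.trans hRZ.le)
        have p2 := ih W hW.lt (by omega) K H (hKR.trans hRW.le) hHY hK hHn
        exact (p1 hZ).trans p2

/-- The cyclic permutation of all saturated chains from rank `n` down to `⊥`. -/
theorem cyc_rank [Finite P] (hP : IsPolytope P rk) {n : ℕ} (hn : n < rk (⊤ : P))
    (h3 : 4 ≤ n ∨ (n = 3 ∧ rk (⊤ : P) = 4)) :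
    ∃ τ : Equiv.Perm (List P), Cyc Differ (Part {G | rk G = n}) τ := by
  obtain ⟨sig, hg⟩ := exists_good hP (n - 3)
  have hn3 : n - 3 + 3 = n := by omega
  rw [hn3] at hg
  obtain ⟨K, _, hK⟩ := exists_of_rank hP hn.le
  have htop : rk (⊤ : P) = 4 → n = 3 → ∀ G : P, rk G = n → G ⋖ ⊤ := by
    intro h4 hn' G hG
    have hlt : G < ⊤ := lt_top_iff_ne_top.mpr (by rintro rfl; omega)
    obtain ⟨X, hGX, hX⟩ := exists_le_covBy_of_lt hlt
    have h1 := hP.rk_cov X ⊤ hX
    have e1 : G = X := by
      by_contra hne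
      have := rk_lt hP (lt_of_le_of_ne hGX hne)
      omega
    rw [e1]
    exact hX
  obtain ⟨τ, hτ, _⟩ := grow (sig := sig) (U := Use rk sig) (𝒢 := {G | rk G = n})
    (Set.toFinite _) ⟨K, hK⟩
    (fun G hG => hg.cyc G (by rw [hG]; omega) (le_of_eq hG))
    (fun R x y hxy => ⟨hxy.1, hxy.2.1⟩)
    (fun G hG R hR x y hxy => hg.use G (by rw [hG]; omega) (le_of_eq hG) R hR x y hxy)
    (fun G hG R hR => by
      have h1 := hP.rk_cov R G hR
      have h2 : rk G = n := hG
      exact use_nonempty hP hg (by omega) (by omega))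
    (fun R hR => by
      obtain ⟨A, hA, B, hB, C, hC, h1, h2, h3', n1, n2, n3⟩ := hR
      have hA' : rk A = n := hA
      have hRA := hP.rk_cov R A h1
      rcases h3 with h4 | ⟨h5, h6⟩
      · exact use_two hP hg (by omega) (by omega)
      · exfalso
        rcases at_most_two hP ⟨h1, htop h6 h5 A hA⟩ ⟨h2, htop h6 h5 B hB⟩
          ⟨h3', htop h6 h5 C hC⟩ with e | e | e
        · exact n1 e
        · exact n2 e
        · exact n3 e)
    (fun G hG H hH => rank_conn hP (by omega) hn G H le_top le_top hG hH)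
  exact ⟨τ, hτ⟩

theorem Chains_finite [Finite P] (hP : IsPolytope P rk) (n : ℕ) : Finite (Chains P rk n) := by
  have : {l : List P | ∃ (F : P) (l' : List P), rk F = n ∧ Sat F l' ∧ l = F :: l'}.Finite := by
    refine (List.finite_length_eq P (n + 1)).subset ?_
    rintro _ ⟨F, l', hF, hl', rfl⟩
    have := Fl_length hP (show l' ∈ Fl F from hl')
    simp [this, hF]
  exact this.to_subtype

/-- From a cyclic permutation of the chains to a Hamilton cycle. -/
theorem hamiltonian_of_cyc [Finite P] (hP : IsPolytope P rk) {n : ℕ}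
    (hn : n < rk (⊤ : P)) (h3 : 3 ≤ n) [DecidableEq (Chains P rk n)]
    (hex : ∃ τ : Equiv.Perm (List P), Cyc Differ (Part {G | rk G = n}) τ) :
    ∃ (c : Chains P rk n) (p : (chainGraph P rk n).Walk c c), p.IsHamiltonianCycle := by
  classical
  obtain ⟨τ, hτ⟩ := hex
  have : Finite (Chains P rk n) := Chains_finite hP n
  have hmem : ∀ l : List P, l ∈ Part {G | rk G = n} ↔
      ∃ (F : P) (l' : List P), rk F = n ∧ Sat F l' ∧ l = F :: l' := fun l => Iff.rfl
  let f : Chains P rk n → Chains P rk n := fun l => ⟨τ l.1, (hmem _).mp (hτ.mem ((hmem _).mpr l.2))⟩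
  have hf : ∀ (k : ℕ) (l : Chains P rk n), (f^[k] l).1 = (⇑τ)^[k] l.1 := by
    intro k
    induction k with
    | zero => intro l; rfl
    | succ k ih =>
      intro l
      rw [Function.iterate_succ_apply', Function.iterate_succ_apply', ← ih]
  refine hamiltonian_of_cyclic (f := f) ?_ ?_ ?_
  · intro l
    exact hτ.adj l.1 ((hmem _).mpr l.2)
  · intro l m
    obtain ⟨k, hk⟩ := hτ.trans l.1 ((hmem _).mpr l.2) m.1 ((hmem _).mpr m.2)
    exact ⟨k, Subtype.ext (by rw [hf, hk])⟩
  · -- three different chains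
    obtain ⟨K, _, hK⟩ := exists_of_rank hP hn.le
    obtain ⟨G, H, l, hne, hG, hH⟩ := exists_two_heads hP (show 2 ≤ rk K by omega)
    have hGK := hP.rk_cov G K hG.1
    obtain ⟨A, B, m, hne', hA, hB⟩ := exists_two_heads hP (show 2 ≤ rk G by omega)
    refine ⟨⟨K :: H :: l, K, H :: l, hK, hH, rfl⟩,
      ⟨K :: G :: A :: m, K, G :: A :: m, hK, ⟨hG.1, hA⟩, rfl⟩,
      ⟨K :: G :: B :: m, K, G :: B :: m, hK, ⟨hG.1, hB⟩, rfl⟩, ?_, ?_, ?_⟩
    · intro h
      have h1 := congrArg Subtype.val h
      exact hne (List.cons.inj (List.cons.inj h1).2).1.symm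
    · intro h
      have h1 := congrArg Subtype.val h
      exact hne (List.cons.inj (List.cons.inj h1).2).1.symm
    · intro h
      have h1 := congrArg Subtype.val h
      exact hne' (List.cons.inj (List.cons.inj (List.cons.inj h1).2).2).1

/-- **Main theorem**, first form. -/
theorem chainGraph_hamiltonian [Finite P] (hP : IsPolytope P rk) {n : ℕ}
    (hn : n < rk (⊤ : P)) (h3 : 4 ≤ n ∨ (n = 3 ∧ rk (⊤ : P) = 4))
    [DecidableEq (Chains P rk n)] :
    ∃ (c : Chains P rk n) (p : (chainGraph P rk n).Walk c c), p.IsHamiltonianCycle :=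
  hamiltonian_of_cyc hP hn (by omega) (cyc_rank hP hn h3)

end FlagHam
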