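import Pool.Agent.FlagHam.Grow
import Mathlib.Data.Set.Finite.List

/-!
# Polygons and the induction on the rank
-/

namespace FlagHam

variable {P : Type*} [PartialOrder P] [BoundedOrder P] {rk : P → ℕ}

open Classical in
/-- The other middle face of the diamond `R ⋖ G ⋖ F`. -/
noncomputable def oth (hP : IsPolytope P rk) (R G F : P) : P :=
  if h : R ⋖ G ∧ G ⋖ F then Classical.choose (other hP h.1 h.2) else G

theorem oth_spec (hP : IsPolytope P rk) {R G F : P} (h1 : R ⋖ G) (h2 : G ⋖ F) :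
    oth hP R G F ≠ G ∧ R ⋖ oth hP R G F ∧ oth hP R G F ⋖ F ∧
      ∀ X, R ⋖ X → X ⋖ F → X = G ∨ X = oth hP R G F := by
  unfold oth
  rw [dif_pos ⟨h1, h2⟩]
  exact Classical.choose_spec (other hP h1 h2)

theorem oth_oth (hP : IsPolytope P rk) {R G F : P} (h1 : R ⋖ G) (h2 : G ⋖ F) :
    oth hP R (oth hP R G F) F = G := by
  obtain ⟨ne1, c1, d1, u1⟩ := oth_spec hP h1 h2
  obtain ⟨ne2, c2, d2, u2⟩ := oth_spec hP c1 d1
  rcases u1 _ c2 d2 with h | h
  · exact h
  · exact absurd h ne2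

/-- Change the vertex of a flag of a polygon. -/
noncomputable def chV (hP : IsPolytope P rk) : List P → List P
  | e :: v :: r => e :: oth hP ⊥ v e :: r
  | l => l

/-- Change the edge of a flag of a polygon `F`. -/
noncomputable def chE (hP : IsPolytope P rk) (F : P) : List P → List P
  | e :: v :: r => oth hP v e F :: v :: r
  | l => l

open Classical in
/-- Extension of a map which is an involution on `S` by the identity. -/
noncomputable def extInv {α : Type*} (S : Set α) (f : α → α) : α → α :=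
  fun x => if x ∈ S then f x else x

theorem extInv_involutive {α : Type*} {S : Set α} {f : α → α} (hS : ∀ x ∈ S, f x ∈ S)
    (hf : ∀ x ∈ S, f (f x) = x) : Function.Involutive (extInv S f) := by
  intro x
  unfold extInv
  by_cases hx : x ∈ S
  · rw [if_pos hx, if_pos (hS x hx), hf x hx]
  · rw [if_neg hx, if_neg hx]

/-- The shape of a flag of a polygon. -/
theorem polygon_flag [Finite P] (hP : IsPolytope P rk) {F : P} (hF : rk F = 3) {l : List P}
    (hl : l ∈ Fl F) : ∃ e v, l = [e, v, ⊥] ∧ e ⋖ F ∧ v ⋖ e ∧ (⊥ : P) ⋖ v := by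
  have hlen := Fl_length hP hl
  rw [hF] at hlen
  match l, hl, hlen with
  | [e, v, w], hl, _ =>
    obtain ⟨h1, h2, h3, h4⟩ := hl
    have hw : w = ⊥ := h4
    subst hw
    exact ⟨e, v, rfl, h1, h2, h3⟩

theorem edge_flag [Finite P] (hP : IsPolytope P rk) {F : P} (hF : rk F = 2) {l : List P}
    (hl : l ∈ Fl F) : ∃ v, l = [v, ⊥] ∧ v ⋖ F ∧ (⊥ : P) ⋖ v := by
  have hlen := Fl_length hP hl
  rw [hF] at hlen
  match l, hl, hlen with
  | [v, w], hl, _ =>
    obtain ⟨h1, h2, h4⟩ := hl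
    have hw : w = ⊥ := h4
    subst hw
    exact ⟨v, rfl, h1, h2⟩

theorem flag_of {F e v : P} (h1 : e ⋖ F) (h2 : v ⋖ e) (h3 : (⊥ : P) ⋖ v) :
    [e, v, ⊥] ∈ Fl F := ⟨h1, h2, h3, rfl⟩

theorem Fl_finite [Finite P] (hP : IsPolytope P rk) (F : P) : (Fl F).Finite :=
  (List.finite_length_eq P (rk F)).subset (fun _ hl => Fl_length hP hl)

theorem polygon [Finite P] (hP : IsPolytope P rk) {F : P} (hF : rk F = 3) :
    ∃ σ : Equiv.Perm (List P), Cyc Differ (Fl F) σ ∧
      ∀ e, e ⋖ F → ∀ x ∈ Fl e, ∀ y ∈ Fl e, x ≠ y → E σ (e :: x) (e :: y) := by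
  have cV : ∀ l ∈ Fl F, ∃ e v, l = [e, v, ⊥] ∧ e ⋖ F ∧ v ⋖ e ∧ (⊥ : P) ⋖ v :=
    fun l hl => polygon_flag hP hF hl
  have sS : ∀ l ∈ Fl F, chV hP l ∈ Fl F := by
    intro l hl
    obtain ⟨e, v, rfl, h1, h2, h3⟩ := cV l hl
    obtain ⟨_, c, d, _⟩ := oth_spec hP h3 h2
    exact flag_of h1 d c
  have ss : ∀ l ∈ Fl F, chV hP (chV hP l) = l := by
    intro l hl
    obtain ⟨e, v, rfl, h1, h2, h3⟩ := cV l hl
    show [e, oth hP ⊥ (oth hP ⊥ v e) e, ⊥] = [e, v, ⊥]
    rw [oth_oth hP h3 h2]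
  have tS : ∀ l ∈ Fl F, chE hP F l ∈ Fl F := by
    intro l hl
    obtain ⟨e, v, rfl, h1, h2, h3⟩ := cV l hl
    obtain ⟨_, c, d, _⟩ := oth_spec hP h2 h1
    exact flag_of d c h3
  have tt : ∀ l ∈ Fl F, chE hP F (chE hP F l) = l := by
    intro l hl
    obtain ⟨e, v, rfl, h1, h2, h3⟩ := cV l hl
    show [oth hP v (oth hP v e F) F, v, ⊥] = [e, v, ⊥]
    rw [oth_oth hP h2 h1]
  set s : Equiv.Perm (List P) := (extInv_involutive sS ss).toPerm with hs
  set t : Equiv.Perm (List P) := (extInv_involutive tS tt).toPerm with ht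
  have sap : ∀ l ∈ Fl F, s l = chV hP l := by
    intro l hl
    show extInv (Fl F) (chV hP) l = _
    unfold extInv
    rw [if_pos hl]
  have tap : ∀ l ∈ Fl F, t l = chE hP F l := by
    intro l hl
    show extInv (Fl F) (chE hP F) l = _
    unfold extInv
    rw [if_pos hl]
  have s0 : ∀ l, l ∉ Fl F → s l = l := by
    intro l hl
    show extInv (Fl F) (chV hP) l = _
    unfold extInv
    rw [if_neg hl]
  have t0 : ∀ l, l ∉ Fl F → t l = l := by
    intro l hl
    show extInv (Fl F) (chE hP F) l = _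
    unfold extInv
    rw [if_neg hl]
  have sdiff : ∀ l ∈ Fl F, Differ l (s l) := by
    intro l hl
    rw [sap l hl]
    obtain ⟨e, v, rfl, h1, h2, h3⟩ := cV l hl
    obtain ⟨ne, _, _, _⟩ := oth_spec hP h3 h2
    exact ⟨[e], v, oth hP ⊥ v e, [⊥], ne.symm, rfl, rfl⟩
  have tdiff : ∀ l ∈ Fl F, Differ l (t l) := by
    intro l hl
    rw [tap l hl]
    obtain ⟨e, v, rfl, h1, h2, h3⟩ := cV l hl
    obtain ⟨ne, _, _, _⟩ := oth_spec hP h2 h1
    exact ⟨[], e, oth hP v e F, [v, ⊥], ne.symm, rfl, rfl⟩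
  -- connectivity
  have hvv : ∀ e v v', e ⋖ F → v ⋖ e → v' ⋖ e → (⊥ : P) ⋖ v → (⊥ : P) ⋖ v' →
      Relation.ReflTransGen (fun a b => b = s a ∨ b = t a) [e, v, ⊥] [e, v', ⊥] := by
    intro e v v' he hv hv' hb hb'
    obtain ⟨_, _, _, u⟩ := oth_spec hP hb hv
    rcases u v' hb' hv' with h | h
    · subst h; exact Relation.ReflTransGen.refl
    · refine Relation.ReflTransGen.single (Or.inl ?_)
      rw [sap _ (flag_of he hv hb), h]
      rfl
  have hbot : ∀ e v, e ⋖ F → v ⋖ e → (⊥ : P) ⋖ v := by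
    intro e v he hv
    have h1 := hP.rk_cov e F he
    have h2 := hP.rk_cov v e hv
    obtain ⟨w, hw⟩ := exists_facet (ne_bot_of_rk hP (show 0 < rk v by omega))
    have h3 := hP.rk_cov w v hw
    have h4 : w = ⊥ := hP.rk_eq_zero (by omega)
    exact h4 ▸ hw
  have hconn : ∀ x ∈ Fl F, ∀ y ∈ Fl F,
      Relation.ReflTransGen (fun a b => b = s a ∨ b = t a) x y := by
    intro x hx y hy
    obtain ⟨e, v, rfl, h1, h2, h3⟩ := cV x hx
    obtain ⟨e', v', rfl, h1', h2', h3'⟩ := cV y hy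
    clear hy hx
    have hp := hP.conn F hF.ge e e' h1 h1'
    induction hp generalizing v' with
    | refl => exact hvv e v v' h1 h2 h2' h3 h3'
    | tail hab hbc ih =>
      rename_i b c
      obtain ⟨hbF, hcF, R, hRb, hRc⟩ := hbc
      have hR := hbot b R hbF hRb
      have p1 := ih R hbF hRb hR
      by_cases hbc' : c = b
      · subst hbc'
        exact p1.trans (hvv c R v' hcF hRc h2' hR h3')
      · obtain ⟨_, _, _, u⟩ := oth_spec hP hRb hbF
        have hc : c = oth hP R b F := by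
          rcases u c hRc hcF with h | h
          · exact absurd h hbc'
          · exact h
        have p2 : Relation.ReflTransGen (fun a b => b = s a ∨ b = t a) [b, R, ⊥] [c, R, ⊥] := by
          refine Relation.ReflTransGen.single (Or.inr ?_)
          rw [tap _ (flag_of hbF hRb hR), hc]
          rfl
        exact (p1.trans p2).trans (hvv c R v' hcF hRc h2' hR h3')
  obtain ⟨σ, hσ, e1, _⟩ := two_involutions (adj := Differ) (Fl_finite hP F) s t
    (fun x => (extInv_involutive sS ss) x) (fun x => (extInv_involutive tS tt) x)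
    (fun x hx => by rw [sap x hx]; exact sS x hx) (fun x hx => by rw [tap x hx]; exact tS x hx)
    s0 t0 (fun x hx => (sdiff x hx).ne.symm) (fun x hx => (tdiff x hx).ne.symm)
    sdiff tdiff hconn
  refine ⟨σ, hσ, ?_⟩
  intro e he x hx y hy hxy
  have hre : rk e = 2 := by
    have := hP.rk_cov e F he
    omega
  obtain ⟨v, rfl, hv, hb⟩ := edge_flag hP hre hx
  obtain ⟨v', rfl, hv', hb'⟩ := edge_flag hP hre hy
  have h1 := e1 [e, v, ⊥] (flag_of he hv hb)
  rw [sap _ (flag_of he hv hb)] at h1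
  obtain ⟨_, _, _, u⟩ := oth_spec hP hb hv
  rcases u v' hb' hv' with h | h
  · exact absurd (by rw [h]) hxy
  · rw [h]; exact h1

/-- The edges used for merging. -/
def Use (rk : P → ℕ) (sig : P → Equiv.Perm (List P)) (R : P) (x y : List P) : Prop :=
  x ∈ Fl R ∧ y ∈ Fl R ∧ ((rk R = 2 ∧ x ≠ y) ∨ (3 ≤ rk R ∧ E (sig R) x y ∧ Cross x y))

/-- A good choice of cycles up to rank `m`. -/
structure Good (rk : P → ℕ) (sig : P → Equiv.Perm (List P)) (m : ℕ) : Prop where
  cyc : ∀ F, 3 ≤ rk F → rk F ≤ m → Cyc Differ (Fl F) (sig F)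
  use : ∀ F, 3 ≤ rk F → rk F ≤ m → ∀ G, G ⋖ F → ∀ x y, Use rk sig G x y →
    E (sig F) (G :: x) (G :: y)

theorem use_nonempty [Finite P] (hP : IsPolytope P rk) {sig : P → Equiv.Perm (List P)} {m : ℕ}
    (hg : Good rk sig m) {R : P} (h2 : 2 ≤ rk R) (hm : rk R ≤ m) : ∃ x y, Use rk sig R x y := by
  by_cases h3 : 3 ≤ rk R
  · obtain ⟨x, hx, _, _, hc, _⟩ := two_cross hP h3 (hg.cyc R h3 hm)
    exact ⟨x, sig R x, hx, (hg.cyc R h3 hm).mem hx, Or.inr ⟨h3, Or.inl rfl, hc⟩⟩
  · obtain ⟨G, H, l, hne, hG, hH⟩ := exists_two_heads hP h2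
    exact ⟨G :: l, H :: l, hG, hH, Or.inl ⟨by omega, fun h => hne (List.cons.inj h).1⟩⟩

theorem use_two [Finite P] (hP : IsPolytope P rk) {sig : P → Equiv.Perm (List P)} {m : ℕ}
    (hg : Good rk sig m) {R : P} (h3 : 3 ≤ rk R) (hm : rk R ≤ m) :
    ∃ x y x' y', Use rk sig R x y ∧ Use rk sig R x' y' ∧ ¬ (x = x' ∧ y = y') ∧
      ¬ (x = y' ∧ y = x') := by
  have hc := hg.cyc R h3 hm
  obtain ⟨x, hx, y, hy, c1, c2, hne, hn⟩ := two_cross hP h3 hc
  refine ⟨x, sig R x, y, sig R y, ⟨hx, hc.mem hx, Or.inr ⟨h3, Or.inl rfl, c1⟩⟩,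
    ⟨hy, hc.mem hy, Or.inr ⟨h3, Or.inl rfl, c2⟩⟩, fun h => hne h.1, ?_⟩
  rintro ⟨e1, e2⟩
  exact hn ⟨e1, e2⟩

theorem Part_facets {F : P} (hF : F ≠ ⊥) : Part {G | G ⋖ F} = Fl F := by
  ext l
  constructor
  · rintro ⟨G, x, hG, hx, rfl⟩
    exact ⟨hG, hx⟩
  · intro hl
    match l, hl with
    | [], hl => exact absurd hl hF
    | G :: x, hl => exact ⟨G, x, hl.1, hl.2, rfl⟩

theorem exists_good [Finite P] (hP : IsPolytope P rk) (m : ℕ) :
    ∃ sig : P → Equiv.Perm (List P), Good rk sig (m + 3) := by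
  classical
  induction m with
  | zero =>
    have hpoly : ∀ F : P, ∃ σ : Equiv.Perm (List P), rk F = 3 → (Cyc Differ (Fl F) σ ∧
      ∀ e, e ⋖ F → ∀ x ∈ Fl e, ∀ y ∈ Fl e, x ≠ y → E σ (e :: x) (e :: y)) := by
      intro F
      by_cases h : rk F = 3
      · obtain ⟨σ, hσ⟩ := polygon hP h
        exact ⟨σ, fun _ => hσ⟩
      · exact ⟨1, fun h' => absurd h' h⟩
    choose sig hsig using hpoly
    refine ⟨sig, ⟨?_, ?_⟩⟩
    · intro F h3 h3'
      exact (hsig F (by omega)).1
    · intro F h3 h3' G hG x y hxy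
      obtain ⟨hx, hy, h | h⟩ := hxy
      · exact (hsig F (by omega)).2 G hG x hx y hy h.2
      · have := hP.rk_cov G F hG
        omega
  | succ m ih =>
    obtain ⟨sig, hg⟩ := ih
    have hstep : ∀ F : P, ∃ τ : Equiv.Perm (List P), rk F = m + 4 → (Cyc Differ (Fl F) τ ∧
        ∀ G, G ⋖ F → ∀ x y, Use rk sig G x y → E τ (G :: x) (G :: y)) := by
      intro F
      by_cases h : rk F = m + 4
      swap
      · exact ⟨1, fun h' => absurd h' h⟩
      have hFb : F ≠ ⊥ := ne_bot_of_rk hP (by omega)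
      have hrk : ∀ G, G ⋖ F → rk G = m + 3 := by
        intro G hG
        have := hP.rk_cov G F hG
        omega
      obtain ⟨τ, hτ, hpres⟩ := grow (sig := sig) (U := Use rk sig) (𝒢 := {G | G ⋖ F})
        (Set.toFinite _) (exists_facet hFb)
        (fun G hG => hg.cyc G (by rw [hrk G hG]; omega) (hrk G hG).le)
        (fun R x y hxy => ⟨hxy.1, hxy.2.1⟩)
        (fun G hG R hR x y hxy => hg.use G (by rw [hrk G hG]; omega) (hrk G hG).le R hR x y hxy)
        (fun G hG R hR => by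
          have h1 := hP.rk_cov R G hR
          have h2 := hrk G hG
          exact use_nonempty hP hg (by omega) (by omega))
        (fun R hR => by
          obtain ⟨A, hA, B, hB, C, hC, h1, h2, h3, n1, n2, n3⟩ := hR
          rcases at_most_two hP ⟨h1, hA⟩ ⟨h2, hB⟩ ⟨h3, hC⟩ with e | e | e
          · exact absurd e n1
          · exact absurd e n2
          · exact absurd e n3)
        (fun G hG H hH => hP.conn F (by omega) G H hG hH)
      rw [Part_facets hFb] at hτ
      refine ⟨τ, fun _ => ⟨hτ, ?_⟩⟩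
      intro G hG x y hxy
      obtain ⟨hx, hy, hc | hc⟩ := hxy
      · have := hrk G hG
        omega
      · exact hpres G hG x hx y hy hc.2.1 hc.2.2
    choose tau htau using hstep
    refine ⟨fun F => if rk F = m + 4 then tau F else sig F, ⟨?_, ?_⟩⟩
    · intro F h3 h4
      by_cases h : rk F = m + 4
      · simp only [h, if_true]
        exact (htau F h).1
      · simp only [h, if_false]
        exact hg.cyc F h3 (by omega)
    · intro F h3 h4 G hG x y hxy
      have hGF := hP.rk_cov G F hG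
      have hG4 : rk G ≠ m + 4 := by omega
      have hxy' : Use rk sig G x y := by
        obtain ⟨hx, hy, hc⟩ := hxy
        refine ⟨hx, hy, ?_⟩
        simpa only [hG4, if_false] using hc
      by_cases h : rk F = m + 4
      · simp only [h, if_true]
        exact (htau F h).2 G hG x y hxy'
      · simp only [h, if_false]
        exact hg.use F h3 (by omega) G hG x y hxy'

end FlagHam
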