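import Pool.Agent.FlagHam.Block
import Pool.Agent.FlagHam.Main

/-!
# Growing a cycle over the vertices
-/

namespace FlagHam

variable {P : Type*} [PartialOrder P] [BoundedOrder P] {rk : P → ℕ}

theorem bot_covBy [Finite P] (hP : IsPolytope P rk) {v : P} (hv : rk v = 1) : (⊥ : P) ⋖ v := by
  obtain ⟨w, hw⟩ := exists_facet (ne_bot_of_rk hP (show 0 < rk v by omega))
  have h3 := hP.rk_cov w v hw
  have h4 : w = ⊥ := hP.rk_eq_zero (by omega)
  exact h4 ▸ hw

theorem exists_cover [Finite P] {v : P} (hv : rk v < rk (⊤ : P)) :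
    ∃ e, v ⋖ e := by
  have h : v < ⊤ := lt_top_iff_ne_top.mpr (by rintro rfl; omega)
  obtain ⟨e, he, _⟩ := exists_covBy_le_of_lt h
  exact ⟨e, he⟩

/-- There are at least three edges at every vertex. -/
theorem three_edges [Finite P] (hP : IsPolytope P rk) (hT : TwoFaces P rk)
    (h4 : 4 ≤ rk (⊤ : P)) {v : P} (hv : rk v = 1) :
    ∀ e, v ⋖ e → ∀ e', ∃ e'', v ⋖ e'' ∧ e'' ≠ e ∧ e'' ≠ e' := by
  intro e he e'
  have r1 := hP.rk_cov v e he
  obtain ⟨F, hF⟩ := exists_cover (show rk e < rk (⊤ : P) by omega)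
  have r2 := hP.rk_cov e F hF
  obtain ⟨K, hK⟩ := exists_cover (show rk F < rk (⊤ : P) by omega)
  obtain ⟨a1, a2, a3, _⟩ := oth_spec hP hF hK
  obtain ⟨b1, b2, b3, _⟩ := oth_spec hP he hF
  obtain ⟨c1, c2, c3, _⟩ := oth_spec hP he a2
  by_cases h : oth hP v e F = e'
  · refine ⟨oth hP v e (oth hP e F K), c2, c1, ?_⟩
    intro h'
    have h5 : oth hP v e F = oth hP v e (oth hP e F K) := by rw [h, h']
    apply a1
    rw [← h5] at c3
    exact (hT v e _ hv he b2 b1.symm).unique ⟨a2, c3⟩ ⟨hF, b3⟩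
  · exact ⟨oth hP v e F, b2, b1, h⟩

/-- The state of the construction. -/
structure StateV (S : Set P) (τ : Equiv.Perm (List P)) : Prop where
  cyc : Cyc Differ (PartV S) τ
  des : ∀ v ∈ S, ∀ e w, v ⋖ e → w ⋖ e → w ∉ S →
    ∃ F F', F ≠ F' ∧ e ⋖ F ∧ e ⋖ F' ∧ E τ [F, e, v, ⊥] [F', e, v, ⊥]

theorem StateV.step [Finite P] (hP : IsPolytope P rk) (hT : TwoFaces P rk)
    (h4 : 4 ≤ rk (⊤ : P)) {S : Set P} {τ : Equiv.Perm (List P)} (hτ : StateV S τ)
    (hS : ∀ v ∈ S, rk v = 1) {v w e : P} (hv : v ∈ S) (hw : w ∉ S) (h1 : v ⋖ e) (h2 : w ⋖ e)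
    (hrw : rk w = 1) : ∃ τ' : Equiv.Perm (List P), StateV (S ∪ {w}) τ' := by
  obtain ⟨F, F', hFF', hF, hF', hE⟩ := hτ.des v hv e w h1 h2 hw
  have hvw : v ≠ w := fun h => hw (h ▸ hv)
  obtain ⟨a1, a2, a3, _⟩ := oth_spec hP h2 hF
  obtain ⟨b1, b2, b3, _⟩ := oth_spec hP h2 hF'
  have hff : oth hP w e F ≠ oth hP w e F' := by
    intro h
    rw [← h] at b3
    exact hFF' ((hT w e _ hrw h2 a2 a1.symm).unique ⟨hF, a3⟩ ⟨hF', b3⟩)
  obtain ⟨σ, hσ, s1, s2⟩ := block hP hT hrw (three_edges hP hT h4 hrw) a2 b2 hff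
  have hσE := s1 e F F' h2 a1.symm b1.symm hF a3 hF' b3
  have hdisj : Disjoint (PartV S) (PartV ({w} : Set P)) := by
    rw [Set.disjoint_left]
    rintro l ⟨A, B, C, hC, _, _, rfl⟩ ⟨A', B', C', hC', _, _, h⟩
    simp only [List.cons.injEq, and_true] at h
    rw [Set.mem_singleton_iff] at hC'
    exact hw (by rw [← hC', ← h.2.2]; exact hC)
  obtain ⟨τ', hcyc, t1, t2⟩ := Cyc.merge hτ.cyc hσ (fun _ _ h => h.symm) hdisj
    (a := [F, e, v, ⊥]) (b := [F', e, v, ⊥]) (c := [F, e, w, ⊥]) (d := [F', e, w, ⊥])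
    ⟨F, e, v, hv, h1, hF, rfl⟩ ⟨F', e, v, hv, h1, hF', rfl⟩
    ⟨F, e, w, rfl, h2, hF, rfl⟩ ⟨F', e, w, rfl, h2, hF', rfl⟩ hE hσE
    ⟨[F, e], v, w, [⊥], hvw, rfl, rfl⟩ ⟨[F', e], v, w, [⊥], hvw, rfl, rfl⟩
  refine ⟨τ', ⟨?_, ?_⟩⟩
  · rw [PartV_insert]; exact hcyc
  · rintro u (hu | hu) g x hug hxg hx
    · have hxS : x ∉ S := fun h => hx (Or.inl h)
      have hxw : x ≠ w := fun h => hx (Or.inr h)
      obtain ⟨A, A', hAA', hA, hA', hEA⟩ := hτ.des u hu g x hug hxg hxS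
      refine ⟨A, A', hAA', hA, hA', ?_⟩
      have hne : ¬ (g = e ∧ u = v) := by
        rintro ⟨rfl, rfl⟩
        have hrx : (⊥ : P) ⋖ x := by
          apply bot_covBy hP
          have e1 := hP.rk_cov x g hxg
          have e2 := hP.rk_cov w g h2
          omega
        rcases at_most_two hP ⟨bot_covBy hP (hS u hu), hug⟩ ⟨bot_covBy hP hrw, h2⟩
          ⟨hrx, hxg⟩ with h | h | h
        · exact hvw h
        · exact hxS (h ▸ hu)
        · exact hxw h.symm
      refine t1 _ ⟨A, g, u, hu, hug, hA, rfl⟩ _ ⟨A', g, u, hu, hug, hA', rfl⟩ hEA ?_ ?_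
      · rintro ⟨h, _⟩
        simp only [List.cons.injEq, and_true] at h
        exact hne ⟨h.2.1, h.2.2⟩
      · rintro ⟨h, _⟩
        simp only [List.cons.injEq, and_true] at h
        exact hne ⟨h.2.1, h.2.2⟩
    · rw [Set.mem_singleton_iff] at hu
      subst hu
      by_cases hge : g = e
      · -- then `x = v`
        subst hge
        exfalso
        have hrx : (⊥ : P) ⋖ x := by
          apply bot_covBy hP
          have e1 := hP.rk_cov x g hxg
          have e2 := hP.rk_cov u g h2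
          omega
        rcases at_most_two hP ⟨bot_covBy hP (hS v hv), h1⟩ ⟨bot_covBy hP hrw, h2⟩
          ⟨hrx, hxg⟩ with h | h | h
        · exact hvw h
        · exact hx (Or.inl (h ▸ hv))
        · exact hx (Or.inr h.symm)
      · obtain ⟨A, A', hAA', hA, hA', hEA⟩ := s2 g hug
        refine ⟨A, A', hAA', hA, hA', ?_⟩
        refine t2 _ ⟨A, g, u, rfl, hug, hA, rfl⟩ _ ⟨A', g, u, rfl, hug, hA', rfl⟩ hEA ?_ ?_
        · rintro ⟨h, _⟩
          simp only [List.cons.injEq, and_true] at h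
          exact hge h.2
        · rintro ⟨h, _⟩
          simp only [List.cons.injEq, and_true] at h
          exact hge h.2

/-- A crossing edge. -/
theorem vertex_cross [Finite P] (hP : IsPolytope P rk) (h4 : 4 ≤ rk (⊤ : P)) {S : Set P}
    {v₀ w₀ : P} (hv₀ : v₀ ∈ S) (hw₀ : w₀ ∉ S) (r1 : rk v₀ = 1) (r2 : rk w₀ = 1) :
    ∃ v w e, v ∈ S ∧ w ∉ S ∧ v ⋖ e ∧ w ⋖ e ∧ rk w = 1 := by
  by_contra hcon
  push Not at hcon
  obtain ⟨e, he⟩ := exists_cover (show rk v₀ < rk (⊤ : P) by omega)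
  obtain ⟨f, hf⟩ := exists_cover (show rk w₀ < rk (⊤ : P) by omega)
  have q1 := hP.rk_cov v₀ e he
  have q2 := hP.rk_cov w₀ f hf
  have hp := rank_conn hP (n := 2) le_rfl (F := ⊤) (by omega) e f le_top le_top (by omega)
    (by omega)
  have key : ∀ g, Relation.ReflTransGen (Rel rk 2) e g → ∃ v ∈ S, v ⋖ g := by
    intro g hg
    induction hg with
    | refl => exact ⟨v₀, hv₀, he⟩
    | tail hab hbc ih =>
      rename_i b c
      obtain ⟨v, hv, hvb⟩ := ih
      obtain ⟨hb, hc, R, hR1, hR2⟩ := hbc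
      have q3 := hP.rk_cov R b hR1
      by_cases hRS : R ∈ S
      · exact ⟨R, hRS, hR2⟩
      · exact absurd (by omega) (hcon v R b hv hRS hvb hR1)
  obtain ⟨v, hv, hvf⟩ := key f hp
  exact hcon v w₀ f hv hw₀ hvf hf r2

/-- The cyclic permutation of all chains from rank 3 down to `⊥`. -/
theorem cyc_rank_three [Finite P] (hP : IsPolytope P rk) (hT : TwoFaces P rk)
    (h4 : 4 ≤ rk (⊤ : P)) :
    ∃ τ : Equiv.Perm (List P), Cyc Differ (Part {G | rk G = 3}) τ := by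
  classical
  set V : Set P := {v | rk v = 1} with hV
  have hfin : V.Finite := Set.toFinite _
  obtain ⟨v₀, _, hv₀⟩ := exists_of_rank hP (show 1 ≤ rk (⊤ : P) by omega)
  have key : ∀ k : ℕ, 1 ≤ k → k ≤ V.ncard →
      ∃ S : Set P, S ⊆ V ∧ v₀ ∈ S ∧ S.ncard = k ∧ ∃ τ, StateV S τ := by
    intro k hk
    induction k, hk using Nat.le_induction with
    | base =>
      intro _
      obtain ⟨e, he⟩ := exists_cover (show rk v₀ < rk (⊤ : P) by omega)
      obtain ⟨e', he', hne, _⟩ := three_edges hP hT h4 hv₀ e he e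
      obtain ⟨σ, hσ, _, s2⟩ := block hP hT hv₀ (three_edges hP hT h4 hv₀) he he' hne.symm
      refine ⟨{v₀}, Set.singleton_subset_iff.mpr hv₀, rfl, Set.ncard_singleton v₀, σ, hσ, ?_⟩
      intro v hv g w hg _ _
      rw [Set.mem_singleton_iff] at hv
      subst hv
      exact s2 g hg
    | succ k hk ih =>
      intro hk1
      obtain ⟨S, hS, hvS, hcard, τ, hτ⟩ := ih (by omega)
      have hout : ∃ w ∈ V, w ∉ S := by
        by_contra hcon
        push Not at hcon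
        have : S = V := Set.Subset.antisymm hS hcon
        rw [this] at hcard
        omega
      obtain ⟨w₀, hw₀, hw₀S⟩ := hout
      obtain ⟨v, w, e, hv, hw, h1, h2, hrw⟩ := vertex_cross hP h4 hvS hw₀S hv₀ hw₀
      obtain ⟨τ', hτ'⟩ := hτ.step hP hT h4 (fun v hv => hS hv) hv hw h1 h2 hrw
      refine ⟨S ∪ {w}, ?_, Or.inl hvS, ?_, τ', hτ'⟩
      · rintro z (hz | hz)
        · exact hS hz
        · rw [Set.mem_singleton_iff] at hz
          rw [hz]
          exact hrw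
      · rw [Set.union_singleton, Set.ncard_insert_of_notMem hw (hfin.subset hS), hcard]
  have hpos : 1 ≤ V.ncard := by
    rw [Nat.one_le_iff_ne_zero]
    intro h0
    rw [Set.ncard_eq_zero hfin] at h0
    have : v₀ ∈ V := hv₀
    rw [h0] at this
    exact this
  obtain ⟨S, hS, _, hcard, τ, hτ⟩ := key V.ncard hpos le_rfl
  have hSV : S = V := Set.eq_of_subset_of_ncard_le hS hcard.ge hfin
  refine ⟨τ, ?_⟩
  have heq : Part {G : P | rk G = 3} = PartV S := by
    ext l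
    constructor
    · rintro ⟨F, x, hF, hx, rfl⟩
      obtain ⟨e, v, rfl, h1, h2, h3⟩ := polygon_flag hP hF hx
      have hF' : rk F = 3 := hF
      have q1 := hP.rk_cov e F h1
      have q2 := hP.rk_cov v e h2
      refine ⟨F, e, v, ?_, h2, h1, rfl⟩
      rw [hSV]
      change rk v = 1
      omega
    · rintro ⟨F, e, v, hv, h1, h2, rfl⟩
      have hv1 : rk v = 1 := hS hv
      have q1 := hP.rk_cov e F h2
      have q2 := hP.rk_cov v e h1
      refine ⟨F, [e, v, ⊥], ?_, flag_of h2 h1 (bot_covBy hP hv1), rfl⟩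
      change rk F = 3
      omega
  rw [heq]
  exact hτ.cyc

end FlagHam
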